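import Pool.Agent.Helper42.PQ.Spec2
import Pool.Agent.Helper42.PQ.Base

set_option autoImplicit false

/-!
General construction of non quadratic pinched Veronese algebras from divisions of nine residues.
-/

namespace Pool.Agent.Helper32.PQ

open Finset Pool.Agent.Helper42.PQ Pool.Agent.Helper857.PV

/-- the index set -/
abbrev X (r : ℕ) (t : Fin 3 → ℕ) : Type := Fin 9 ⊕ (Σ j : Fin 3, Fin (t j * r - 2))

/-- the excess of the weights -/
def FF {r : ℕ} {t : Fin 3 → ℕ} (f : Fin 9 → ℕ) : X r t → ℕ := Sum.elim f (fun _ => 0)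

lemma card_X (r k : ℕ) (t : Fin 3 → ℕ) (hr : 2 ≤ r) (ht : ∀ j, 1 ≤ t j) (hk : ∑ j, t j = k) :
    Fintype.card (X r t) = k * r + 3 := by
  rw [Fintype.card_sum, Fintype.card_sigma, Fintype.card_fin]
  simp only [Fintype.card_fin]
  have h1 : ∀ j, t j * r - 2 + 2 = t j * r := by
    intro j
    have : 2 ≤ t j * r := by nlinarith [ht j]
    omega
  have h2 : ∑ j, (t j * r - 2) + 6 = k * r := by
    have : ∑ j, (t j * r - 2) + 6 = ∑ j, (t j * r - 2 + 2) := by
      rw [Finset.sum_add_distrib]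
      simp
    rw [this]
    simp only [h1]
    rw [← Finset.sum_mul, hk]
  omega

section
variable {n r : ℕ} {t : Fin 3 → ℕ} (e : Fin n ≃ X r t) (f : Fin 9 → ℕ)

/-- the weight -/
def ww : Fin n → ℕ := fun i => 1 + FF f (e i)

lemma sp_ww : sp (ww e f) = Finset.univ := by
  ext i
  simp [mem_sp, ww]

lemma sum_FF (p : Fin n → Prop) [DecidablePred p] :
    ∑ i, (if p i then FF f (e i) else 0) =
      ∑ a : Fin 9, if p (e.symm (Sum.inl a)) then f a else 0 := by
  rw [← Equiv.sum_comp e.symm (fun i => if p i then FF f (e i) else 0)]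
  rw [Fintype.sum_sum_type]
  simp [FF]

lemma sg_cls (ρ : Fin n → Fin 3) (j : Fin 3) : sg (ww e f) (cls (ww e f) ρ j) =
    (cls (ww e f) ρ j).card + ∑ a : Fin 9, if ρ (e.symm (Sum.inl a)) = j then f a else 0 := by
  have h0 : cls (ww e f) ρ j = Finset.univ.filter (fun i => ρ i = j) := by
    unfold cls
    rw [sp_ww]
  rw [← sum_FF e f (fun i => ρ i = j), h0, ← Finset.sum_filter]
  unfold sg ww
  rw [Finset.sum_add_distrib]
  simp

lemma card_cls (g : Fin 9 → Fin 3) (j : Fin 3) (hr : 2 ≤ r) (ht : ∀ j, 1 ≤ t j)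
    (hg : (Finset.univ.filter (fun a => g a = j)).card = 3) :
    (cls (ww e f) (fun i => Sum.elim g Sigma.fst (e i)) j).card = t j * r + 1 := by
  have h0 : cls (ww e f) (fun i => Sum.elim g Sigma.fst (e i)) j =
      Finset.univ.filter (fun i => Sum.elim g Sigma.fst (e i) = j) := by
    unfold cls
    rw [sp_ww]
  rw [h0, Finset.card_filter]
  rw [Equiv.sum_comp e (fun x => if Sum.elim g Sigma.fst x = j then 1 else 0)]
  rw [Fintype.sum_sum_type, Fintype.sum_sigma]
  have h1 : t j * r - 2 + 2 = t j * r := by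
    have : 2 ≤ t j * r := by nlinarith [ht j]
    omega
  have h2 : ∑ x : Fin 3, ∑ _y : Fin (t x * r - 2), (if x = j then 1 else 0) = t j * r - 2 := by
    simp
  have h3 : (∑ a : Fin 9, if g a = j then 1 else 0) = 3 := by
    rw [← Finset.card_filter, hg]
  have h4 : (∑ a : Fin 9, if g a = j then 1 else 0) +
      ∑ x : Fin 3, ∑ _y : Fin (t x * r - 2), (if x = j then 1 else 0) = t j * r + 1 := by
    rw [h2, h3]
    omega
  exact h4

end

/-- the general criterion -/
theorem gen (hR : S_REAL) (hC : S_CLO) (K : Type) [Field K] (r N k n : ℕ) (f : Fin 9 → ℕ)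
    (t : Fin 3 → ℕ) (g₁ g₂ : Fin 9 → Fin 3) (Qb : (Fin 9 → Fin 3) → Prop) (hr : 2 ≤ r)
    (hN : 1 ≤ N) (ht : ∀ j, 1 ≤ t j) (hk : ∑ j, t j = k) (hn : n = k * r + 3)
    (h1 : ∀ j, (∑ a, if g₁ a = j then f a else 0) + 1 = N * t j)
    (c1 : ∀ j, (Finset.univ.filter (fun a => g₁ a = j)).card = 3)
    (h2 : ∀ j, (∑ a, if g₂ a = j then f a else 0) + 1 = N * t j)
    (c2 : ∀ j, (Finset.univ.filter (fun a => g₂ a = j)).card = 3)
    (hQ1 : Qb g₁)
    (hcl : ∀ (g g' : Fin 9 → Fin 3) (a b : Fin 3), Qb g →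
      (∀ v, (g v ≠ a → g v ≠ b → g' v = g v) ∧ ((g v = a ∨ g v = b) → (g' v = a ∨ g' v = b))) →
      (∀ j, N ∣ (∑ a, if g' a = j then f a else 0) + 1) → Qb g')
    (j₀ : Fin 3) (A : Finset (Fin 9)) (hA : ∀ a ∈ A, g₂ a = j₀) (hA' : t j₀ < A.card)
    (hAQ : ∀ g, Qb g → ∀ a ∈ A, ∀ a' ∈ A, a ≠ a' → g a ≠ g a') :
    ¬ IsQuadratic K n (r + N) (r + 1) := by
  have hcard : Fintype.card (Fin n) = Fintype.card (X r t) := by
    rw [card_X r k t hr ht hk, Fintype.card_fin, hn]
  obtain ⟨e⟩ : Nonempty (Fin n ≃ X r t) := ⟨Fintype.equivOfCardEq hcard⟩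
  set w : Fin n → ℕ := ww e f with hw
  have hwne : ∀ i, w i ≠ 0 := fun i => by simp [hw, ww]
  have hspw : (sp w).card = k * r + 3 := by
    rw [hw, sp_ww, Finset.card_univ, Fintype.card_fin, hn]
  -- the groupings
  have hNG : ∀ g : Fin 9 → Fin 3, (∀ j, (∑ a, if g a = j then f a else 0) + 1 = N * t j) →
      (∀ j, (Finset.univ.filter (fun a => g a = j)).card = 3) →
      NG w r (r + N) (fun i => Sum.elim g Sigma.fst (e i)) := by
    intro g h c j
    refine ⟨t j, ht j, card_cls e f g j hr ht (c j), ?_⟩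
    rw [hw, sg_cls, card_cls e f g j hr ht (c j)]
    simp only [Equiv.apply_symm_apply, Sum.elim_inl]
    have := h j
    nlinarith
  have hsumf : (∑ a, f a) + 3 = N * k := by
    have e1 : ∑ a, f a = ∑ j, ∑ a, if g₁ a = j then f a else 0 := by
      rw [Finset.sum_comm]
      apply Finset.sum_congr rfl
      intro a _
      simp
    have e2 : ∑ j, ((∑ a, if g₁ a = j then f a else 0) + 1) = N * k := by
      rw [← hk, Finset.mul_sum]
      exact Finset.sum_congr rfl (fun j _ => h1 j)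
    rw [Finset.sum_add_distrib] at e2
    rw [e1]
    simpa using e2
  have hsumw : ∑ i, w i = k * (r + N) := by
    have e1 : ∑ i, w i = n + ∑ a, f a := by
      have := sum_FF e f (fun _ => True)
      simp only [if_true] at this
      rw [← this, hw]
      unfold ww
      rw [Finset.sum_add_distrib]
      simp
    rw [e1, hn]
    nlinarith
  obtain ⟨S, hS⟩ := hR (Fin n) (r + N) r 3 w (fun i => Sum.elim g₁ Sigma.fst (e i)) hr (by omega)
    (hNG g₁ h1 c1)
  obtain ⟨T, hT⟩ := hR (Fin n) (r + N) r 3 w (fun i => Sum.elim g₂ Sigma.fst (e i)) hr (by omega)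
    (hNG g₂ h2 c2)
  set Q : (Fin n → Fin 3) → Prop := fun ρ => Qb (fun a => ρ (e.symm (Sum.inl a))) with hQdef
  have hQcl : ∀ (ρ ρ' : Fin n → Fin 3) (a b : Fin 3), Q ρ → NG w r (r + N) ρ →
      NG w r (r + N) ρ' → TwoOn {v | w v ≠ 0} a b ρ ρ' → Q ρ' := by
    intro ρ ρ' a b hq _ hng htwo
    refine hcl _ _ a b hq (fun v => htwo _ (hwne _)) (fun j => ?_)
    obtain ⟨t', _, u1, u2⟩ := hng j
    rw [hw, sg_cls, ← hw, u1] at u2
    refine ⟨t', ?_⟩
    nlinarith
  apply Pool.Agent.Helper46.PV.not_quad_of_class K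
    (fun S : Multiset (Gen n (r + N) (r + 1)) => Wt (ι := Fin n) S = w ∧
      ∃ ρ, Q ρ ∧ Cf (ι := Fin n) w ρ S) ?_ S T ?_ ?_ ?_
  · rintro B u v u' v' huv ⟨hW, hρ⟩
    refine ⟨?_, hC (Fin n) (r + N) r 3 k w Q (by omega) (by omega) (by norm_num) hsumw hspw hQcl B
      u v u' v' huv hW hρ⟩
    rw [← hW, Wt_cons, Wt_cons, Wt_cons, Wt_cons, ← add_assoc, ← add_assoc, huv]
  · exact (hS.Wt_eq).trans (hT.Wt_eq).symm
  · refine ⟨hS.Wt_eq, _, ?_, hS⟩
    simp only [hQdef, Equiv.apply_symm_apply, Sum.elim_inl]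
    exact hQ1
  · rintro ⟨-, ρ, hq, T', hT', hTT'⟩
    obtain ⟨T₀, hT₀, hTT₀⟩ := hT
    obtain ⟨g1, g2⟩ := hT₀ j₀
    have hcardT : (T₀ j₀).card = t j₀ := by
      rw [g1, sp_class, card_cls e f g₂ j₀ hr ht (c2 j₀)] at g2
      have : t j₀ * r = (T₀ j₀).card * r := by omega
      exact (Nat.eq_of_mul_eq_mul_right (by omega) this).symm
    -- every variable of `A` occurs in a block
    have hocc : ∀ a ∈ A, ∃ m ∈ (T₀ j₀).toFinset, m.1 (e.symm (Sum.inl a)) ≠ 0 := by
      intro a ha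
      by_contra hcon
      push Not at hcon
      have hz : Wt (T₀ j₀) (e.symm (Sum.inl a)) = 0 := by
        have : ∀ U : Multiset (G (Fin n) (r + N) (r + 1)),
            (∀ m ∈ U, m.1 (e.symm (Sum.inl a)) = 0) → Wt U (e.symm (Sum.inl a)) = 0 := by
          intro U
          induction U using Multiset.induction_on with
          | empty => intro _; simp [Wt_zero]
          | cons m U ih =>
            intro h
            rw [Wt_cons]
            simp only [Pi.add_apply]
            rw [h m (Multiset.mem_cons_self _ _),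
              ih (fun m' hm' => h m' (Multiset.mem_cons_of_mem hm'))]
        exact this _ (fun m hm => hcon m (Multiset.mem_toFinset.2 hm))
      rw [g1] at hz
      simp only [Equiv.apply_symm_apply, Sum.elim_inl, hA a ha, if_true] at hz
      exact hwne _ hz
    have hne0 : Nonempty (G (Fin n) (r + N) (r + 1)) := by
      obtain ⟨a, ha⟩ := Finset.card_pos.1 (lt_of_le_of_lt (Nat.zero_le _) hA')
      obtain ⟨m, -, -⟩ := hocc a ha
      exact ⟨m⟩
    choose! φ hφ hφ' using hocc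
    have hlt : (T₀ j₀).toFinset.card < A.card :=
      lt_of_le_of_lt ((Multiset.toFinset_card_le _).trans hcardT.le) hA'
    obtain ⟨a, ha, a', ha', hne, heq⟩ := Finset.exists_ne_map_eq_of_card_lt_of_maps_to hlt
      (fun a ha => hφ a ha)
    have hm : φ a ∈ T := by
      rw [hTT₀]
      have h3 : φ a ∈ T₀ j₀ := Multiset.mem_toFinset.1 (hφ a ha)
      exact Multiset.mem_sum.2 ⟨j₀, Finset.mem_univ _, h3⟩
    rw [hTT'] at hm
    obtain ⟨j', _, hj'⟩ := Multiset.mem_sum.1 hm
    have hin : ∀ i, (φ a).1 i ≠ 0 → ρ i = j' := by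
      intro i hi
      have h4 := le_Wt hj' i
      rw [(hT' j').1] at h4
      by_contra hc
      simp only [hc, if_false] at h4
      omega
    have e1 := hin _ (hφ' a ha)
    have e2 := hin (e.symm (Sum.inl a')) (by rw [heq]; exact hφ' a' ha')
    exact hAQ _ hq a ha a' ha' hne (e1.trans e2.symm)

end Pool.Agent.Helper32.PQ
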