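import Pool.Agent.Helper42.PQ.Spec3
import Pool.Agent.Helper42.PQ.Base

set_option autoImplicit false
set_option linter.unusedSectionVars false

/-!
Two classes of five variables: tools.
-/

namespace Pool.Agent.Helper32.PQ.LK

open Finset Pool.Agent.Helper42.PQ Pool.Agent.Helper46.PV

variable {ι : Type} [Fintype ι] [DecidableEq ι] {w : ι → ℕ} {d : ℕ}

lemma cf_congr {r q : ℕ} {ρ ρ' : ι → Fin q} {S : Multiset (G ι d (r + 1))}
    (h : ∀ i, w i ≠ 0 → ρ i = ρ' i) (hS : Cf w ρ S) : Cf w ρ' S := by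
  obtain ⟨T, hT, rfl⟩ := hS
  refine ⟨T, fun j => ⟨?_, (hT j).2⟩, rfl⟩
  rw [(hT j).1]
  funext i
  by_cases h0 : w i = 0
  · simp [h0]
  · rw [h i h0]

lemma cf_perm {r q : ℕ} {ρ : ι → Fin q} {S : Multiset (G ι d (r + 1))} (σ : Equiv.Perm (Fin q))
    (hS : Cf w ρ S) : Cf w (fun i => σ (ρ i)) S := by
  obtain ⟨T, hT, rfl⟩ := hS
  refine ⟨fun j => T (σ.symm j), fun j => ⟨?_, (hT _).2⟩, ?_⟩
  · rw [(hT _).1]
    funext i
    by_cases h0 : σ (ρ i) = j
    · rw [if_pos h0, if_pos (by rw [← h0]; simp)]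
    · rw [if_neg h0, if_neg (fun h => h0 (by rw [h]; simp))]
  · exact (Equiv.sum_comp σ.symm T).symm

/-- the grouping with class `0` equal to `A` -/
def rh (A : Finset ι) : ι → Fin 2 := fun i => if i ∈ A then 0 else 1

/-- possible classes -/
def Fine (w : ι → ℕ) (d : ℕ) (A : Finset ι) : Prop := A ⊆ sp w ∧ A.card = 5 ∧ sg w A = 2 * d

/-- all configurations with the class `A` are connected to those with the class `C` -/
def Link (w : ι → ℕ) (d : ℕ) (A C : Finset ι) : Prop := ∀ S T : Multiset (G ι d 3),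
  Cf (r := 2) w (rh A) S → Cf (r := 2) w (rh C) T → Cn S T

lemma cls_zero {A : Finset ι} (hA : A ⊆ sp w) : cls w (rh A) 0 = A := by
  ext i
  rw [mem_cls]
  unfold rh
  constructor
  · rintro ⟨_, h⟩
    by_contra hc
    rw [if_neg hc] at h
    exact absurd h (by decide)
  · intro h
    exact ⟨mem_sp.1 (hA h), if_pos h⟩

lemma cls_one (A : Finset ι) : cls w (rh A) 1 = sp w \ A := by
  ext i
  rw [mem_cls, Finset.mem_sdiff, mem_sp]
  unfold rh
  constructor
  · rintro ⟨h0, h⟩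
    refine ⟨h0, fun hc => ?_⟩
    rw [if_pos hc] at h
    exact absurd h (by decide)
  · rintro ⟨h0, h⟩
    exact ⟨h0, if_neg h⟩

lemma sg_sp (w : ι → ℕ) : sg w (sp w) = ∑ i, w i := by
  unfold sg
  apply Finset.sum_subset (Finset.subset_univ _)
  intro i _ hi
  rw [mem_sp, not_not] at hi
  exact hi

/-- the data of the case -/
structure Dat (w : ι → ℕ) (d : ℕ) : Prop where
  d7 : 7 ≤ d
  d8 : d ≤ 8
  sum : ∑ i, w i = 4 * d
  card : (sp w).card = 10
  ih : ∀ w' : ι → ℕ, ∑ i, w' i = 3 * d → Conn ι d 3 3 w'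

lemma fine_compl (D : Dat w d) {A : Finset ι} (hA : Fine w d A) : Fine w d (sp w \ A) := by
  obtain ⟨h1, h2, h3⟩ := hA
  refine ⟨Finset.sdiff_subset, ?_, ?_⟩
  · rw [Finset.card_sdiff_of_subset h1, D.card, h2]
  · have h4 := sg_sdiff w h1
    rw [sg_sp, D.sum] at h4
    omega

lemma ng_fine (D : Dat w d) {A : Finset ι} (hA : Fine w d A) : NG w 2 d (rh A) := by
  intro j
  have h2 := fine_compl D hA
  fin_cases j
  · exact ⟨2, by norm_num, by simp only [Fin.zero_eta]; rw [cls_zero hA.1, hA.2.1], by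
      simp only [Fin.zero_eta]; rw [cls_zero hA.1, hA.2.2]⟩
  · exact ⟨2, by norm_num, by simp only [Fin.mk_one]; rw [cls_one, h2.2.1], by
      simp only [Fin.mk_one]; rw [cls_one, h2.2.2]⟩

lemma cf_compl {A : Finset ι} {S : Multiset (G ι d 3)} (hS : Cf (r := 2) w (rh A) S) :
    Cf (r := 2) w (rh (sp w \ A)) S := by
  refine cf_congr ?_ (cf_perm (Equiv.swap 0 1) hS)
  intro i hi
  unfold rh
  by_cases h : i ∈ A
  · rw [if_pos h, if_neg (fun hc => (Finset.mem_sdiff.1 hc).2 h)]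
    simp
  · rw [if_neg h, if_pos (Finset.mem_sdiff.2 ⟨mem_sp.2 hi, h⟩)]
    simp

lemma Link.symm {A C : Finset ι} (h : Link w d A C) : Link w d C A :=
  fun S T hS hT => (h T S hT hS).symm

lemma Link.trans (hR : S_REAL) (D : Dat w d) {A B C : Finset ι} (hB : Fine w d B)
    (h : Link w d A B) (h' : Link w d B C) : Link w d A C := by
  intro S T hS hT
  have := D.d7
  obtain ⟨U, hU⟩ := hR ι d 2 2 w (rh B) le_rfl (by omega) (ng_fine D hB)
  exact (h S U hS hU).trans (h' U T hU hT)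

lemma Link.right {A C : Finset ι} (h : Link w d A (sp w \ C)) : Link w d A C :=
  fun S T hS hT => h S T hS (cf_compl hT)

lemma Link.left {A C : Finset ι} (h : Link w d (sp w \ A) C) : Link w d A C :=
  fun S T hS hT => h S T (cf_compl hS) hT

lemma link_refl (hSA : S_SAME) (D : Dat w d) (A : Finset ι) : Link w d A A := by
  intro S T hS hT
  have := D.d7
  exact hSA ι d 2 2 w _ _ S T le_rfl (by omega) hS hT (fun _ _ => rfl)

lemma link_pos (hSP : S_SPOS) (D : Dat w d) {A C : Finset ι}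
    (h : ∀ i, 2 ≤ w i → (i ∈ A ↔ i ∈ C)) : Link w d A C := by
  intro S T hS hT
  have := D.d7
  refine hSP ι d 2 2 w _ _ S T le_rfl (by omega) hS hT (fun i hi => ?_)
  unfold rh
  by_cases hA : i ∈ A
  · rw [if_pos hA, if_pos ((h i hi).1 hA)]
  · rw [if_neg hA, if_neg (fun hc => hA ((h i hi).2 hc))]

lemma link_node (hN : S_NODE) (D : Dat w d) {A C P : Finset ι} {x : ι} (hA : A ⊆ sp w)
    (hC : C ⊆ sp w) (hPA : P ⊆ A) (hPC : P ⊆ C) (hxA : x ∈ A) (hxC : x ∈ C)
    (hB : Bn w 2 d P x) : Link w d A C := by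
  intro S T hS hT
  have := D.d7
  refine hN ι d 2 2 2 3 w (rh A) (rh C) 0 0 (P, x) S T le_rfl (by omega) ?_ ?_ hB ?_ ?_ ?_ ?_ hS hT
  · rw [D.sum]
  · exact D.ih _ (sum_sub_bvec (k := 3) hB (by rw [D.sum]))
  · rw [cls_zero hA]; exact hPA
  · rw [cls_zero hA]; exact hxA
  · rw [cls_zero hC]; exact hPC
  · rw [cls_zero hC]; exact hxC

/-- exchange of two parts with the same sum -/
lemma exch (hN : S_NODE) (D : Dat w d) {A P Q R : Finset ι} {z : ι} (hA : Fine w d A) (hP : P ⊆ A)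
    (hQ : Q ⊆ sp w \ A) (hc : P.card = Q.card) (hs : sg w P = sg w Q) (hR : R ⊆ A \ P)
    (hz : z ∈ A \ P) (hB : Bn w 2 d R z) :
    Fine w d ((A \ P) ∪ Q) ∧ Link w d A ((A \ P) ∪ Q) := by
  have hdis : Disjoint (A \ P) Q := by
    rw [Finset.disjoint_left]
    intro i hi hi'
    exact (Finset.mem_sdiff.1 (hQ hi')).2 (Finset.mem_sdiff.1 hi).1
  have hsub : (A \ P) ∪ Q ⊆ sp w := Finset.union_subset (Finset.sdiff_subset.trans hA.1)
    (hQ.trans Finset.sdiff_subset)
  refine ⟨⟨hsub, ?_, ?_⟩, ?_⟩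
  · rw [Finset.card_union_of_disjoint hdis, Finset.card_sdiff_of_subset hP, hA.2.1]
    have := Finset.card_le_card hP
    rw [hA.2.1] at this
    omega
  · rw [sg_union w hdis, ← hs, sg_sdiff w hP, hA.2.2]
  · refine link_node hN D hA.1 hsub (hR.trans Finset.sdiff_subset)
      (hR.trans Finset.subset_union_left) (Finset.mem_sdiff.1 hz).1
      (Finset.mem_union_left _ hz) hB

/-- enumeration of a finite set -/
lemma enum (U : Finset ι) (n : ℕ) (h : U.card = n) : ∃ f : Fin n → ι, Function.Injective f ∧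
    (∀ i, f i ∈ U) ∧ (∀ a ∈ U, ∃ i, f i = a) ∧ ∑ i, w (f i) = sg w U := by
  obtain e := (Finset.equivFinOfCardEq h).symm
  refine ⟨fun i => (e i : ι), fun i j hij => e.injective (Subtype.ext hij), fun i => (e i).2,
    fun a ha => ⟨e.symm ⟨a, ha⟩, by simp⟩, ?_⟩
  rw [Equiv.sum_comp e (fun x : U => w x)]
  unfold sg
  exact Finset.sum_coe_sort U w

end Pool.Agent.Helper32.PQ.LK
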