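import Pool.Agent.Helper32.PQ.N11

set_option autoImplicit false

/-!
`d = s + 10`, `n = 6 s - 3`.
-/

namespace Pool.Agent.Helper32.PQ.N10

open Finset Pool.Agent.Helper42.PQ Pool.Agent.Helper857.PV

/-- the good divisions: classes `{5,7,9}`, `{6,7,8}`, `{6,7,8}`; the items are
`5,7,9,8,7,6,8,7,6` -/
def Qb (g : Fin 9 → Fin 3) : Prop :=
  g 0 = g 2 ∧ g 1 ≠ g 4 ∧ g 4 ≠ g 7 ∧ g 1 ≠ g 7 ∧ g 3 ≠ g 0 ∧ g 6 ≠ g 0 ∧ g 3 ≠ g 6 ∧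
    g 5 ≠ g 0 ∧ g 8 ≠ g 0 ∧ g 5 ≠ g 8

set_option synthInstance.maxSize 5000 in
lemma chk : ∀ c x0 x3 : Fin 3, x3 ≠ x0 → ∀ x6 : Fin 3, x6 ≠ x0 → x3 ≠ x6 →
    ∀ x5 : Fin 3, x5 ≠ x0 → ∀ x8 : Fin 3, x8 ≠ x0 → x5 ≠ x8 →
    ∀ x1 x4 : Fin 3, x1 ≠ x4 → ∀ x7 : Fin 3, x4 ≠ x7 → x1 ≠ x7 →
    ∀ y0 : Fin 3, (y0 = c ↔ x0 = c) → ∀ y1 : Fin 3, (y1 = c ↔ x1 = c) →
    ∀ y2 : Fin 3, (y2 = c ↔ x0 = c) → ∀ y3 : Fin 3, (y3 = c ↔ x3 = c) →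
    ∀ y4 : Fin 3, (y4 = c ↔ x4 = c) → ∀ y5 : Fin 3, (y5 = c ↔ x5 = c) →
    ∀ y6 : Fin 3, (y6 = c ↔ x6 = c) → ∀ y7 : Fin 3, (y7 = c ↔ x7 = c) →
    ∀ y8 : Fin 3, (y8 = c ↔ x8 = c) →
    (∀ j : Fin 3, ((if y0 = j then 5 else 0) + (if y1 = j then 7 else 0) +
      (if y2 = j then 9 else 0) + (if y3 = j then 8 else 0) + (if y4 = j then 7 else 0) +
      (if y5 = j then 6 else 0) + (if y6 = j then 8 else 0) + (if y7 = j then 7 else 0) +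
      (if y8 = j then 6 else 0) + 1) % 11 = 0) →
    (y0 = y2 ∧ y1 ≠ y4 ∧ y4 ≠ y7 ∧ y1 ≠ y7 ∧ y3 ≠ y0 ∧ y6 ≠ y0 ∧ y3 ≠ y6 ∧
      y5 ≠ y0 ∧ y8 ≠ y0 ∧ y5 ≠ y8) := by
  decide +kernel

lemma cl (g g' : Fin 9 → Fin 3) (a b : Fin 3) (hq : Qb g)
    (h : ∀ v, (g v ≠ a → g v ≠ b → g' v = g v) ∧ ((g v = a ∨ g v = b) → (g' v = a ∨ g' v = b)))
    (hs : ∀ j, 11 ∣ (∑ v, if g' v = j then (![5, 7, 9, 8, 7, 6, 8, 7, 6] : Fin 9 → ℕ) v else 0) + 1) :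
    Qb g' := by
  obtain ⟨c, hc⟩ := N11.third g g' a b h
  obtain ⟨q1, q2, q3, q4, q5, q6, q7, q8, q9, q10⟩ := hq
  refine chk c (g 0) (g 3) q5 (g 6) q6 q7 (g 5) q8 (g 8) q9 q10 (g 1) (g 4) q2 (g 7) q3 q4
    (g' 0) (hc 0) (g' 1) (hc 1) (g' 2) ?_ (g' 3) (hc 3) (g' 4) (hc 4) (g' 5) (hc 5) (g' 6) (hc 6)
    (g' 7) (hc 7) (g' 8) (hc 8) ?_
  · rw [q1]; exact hc 2
  · intro j
    have := Nat.mod_eq_zero_of_dvd (hs j)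
    simpa [Fin.sum_univ_succ, add_assoc] using this

theorem main (hR : S_REAL) (hC : S_CLO) : S_N10 := by
  intro K _ s hs
  obtain ⟨r, rfl⟩ : ∃ r, s = r + 1 := ⟨s - 1, by omega⟩
  have h := gen hR hC K r 11 6 (6 * (r + 1) - 3) ![5, 7, 9, 8, 7, 6, 8, 7, 6] ![2, 2, 2]
    ![0, 0, 0, 1, 1, 1, 2, 2, 2] ![0, 1, 2, 0, 1, 2, 0, 1, 2] Qb (by omega) (by norm_num)
    (by decide) (by decide) (by omega) (by decide) (by decide) (by decide) (by decide)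
    (by unfold Qb; decide) cl 1 {1, 4, 7} (by decide) (by decide) (by
      intro g hg a ha a' ha' hne
      obtain ⟨q1, q2, q3, q4, q5, q6, q7, q8, q9, q10⟩ := hg
      fin_cases ha <;> fin_cases ha'
      · exact absurd rfl hne
      · exact q2
      · exact q4
      · exact q2.symm
      · exact absurd rfl hne
      · exact q3
      · exact q4.symm
      · exact q3.symm
      · exact absurd rfl hne)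
  exact h

end Pool.Agent.Helper32.PQ.N10
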