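import Pool.Agent.Helper32.PQ.GEN

set_option autoImplicit false

/-!
`d = s + 11`, `n = 4 s - 1`.
-/

namespace Pool.Agent.Helper32.PQ.N11

open Finset Pool.Agent.Helper42.PQ Pool.Agent.Helper857.PV

/-- the good divisions: classes `{1,1,9}`, `{3,3,5}`, `{7,7,9}` -/
def Qb (g : Fin 9 → Fin 3) : Prop :=
  g 0 = g 1 ∧ g 3 = g 4 ∧ g 3 = g 5 ∧ g 6 = g 7 ∧ g 0 ≠ g 3 ∧ g 3 ≠ g 6 ∧ g 0 ≠ g 6 ∧
    ((g 2 = g 0 ∧ g 8 = g 6) ∨ (g 2 = g 6 ∧ g 8 = g 0))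

set_option synthInstance.maxSize 5000 in
lemma chk : ∀ c x0 x3 : Fin 3, x0 ≠ x3 → ∀ x6 : Fin 3, x3 ≠ x6 → x0 ≠ x6 → ∀ x2 x8 : Fin 3,
    ((x2 = x0 ∧ x8 = x6) ∨ (x2 = x6 ∧ x8 = x0)) →
    ∀ y0 : Fin 3, (y0 = c ↔ x0 = c) → ∀ y1 : Fin 3, (y1 = c ↔ x0 = c) →
    ∀ y2 : Fin 3, (y2 = c ↔ x2 = c) → ∀ y3 : Fin 3, (y3 = c ↔ x3 = c) →
    ∀ y4 : Fin 3, (y4 = c ↔ x3 = c) → ∀ y5 : Fin 3, (y5 = c ↔ x3 = c) →
    ∀ y6 : Fin 3, (y6 = c ↔ x6 = c) → ∀ y7 : Fin 3, (y7 = c ↔ x6 = c) →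
    ∀ y8 : Fin 3, (y8 = c ↔ x8 = c) →
    (∀ j : Fin 3, ((if y0 = j then 1 else 0) + (if y1 = j then 1 else 0) +
      (if y2 = j then 9 else 0) + (if y3 = j then 3 else 0) + (if y4 = j then 3 else 0) +
      (if y5 = j then 5 else 0) + (if y6 = j then 7 else 0) + (if y7 = j then 7 else 0) +
      (if y8 = j then 9 else 0) + 1) % 12 = 0) →
    (y0 = y1 ∧ y3 = y4 ∧ y3 = y5 ∧ y6 = y7 ∧ y0 ≠ y3 ∧ y3 ≠ y6 ∧ y0 ≠ y6 ∧
      ((y2 = y0 ∧ y8 = y6) ∨ (y2 = y6 ∧ y8 = y0))) := by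
  decide +kernel

/-- a third class is fixed -/
lemma third (g g' : Fin 9 → Fin 3) (a b : Fin 3)
    (h : ∀ v, (g v ≠ a → g v ≠ b → g' v = g v) ∧ ((g v = a ∨ g v = b) → (g' v = a ∨ g' v = b))) :
    ∃ c : Fin 3, ∀ v, (g' v = c ↔ g v = c) := by
  have aux : ∀ a b : Fin 3, ∃ c : Fin 3, c ≠ a ∧ c ≠ b := by decide
  obtain ⟨c, hca, hcb⟩ := aux a b
  refine ⟨c, fun v => ?_⟩
  obtain ⟨h1, h2⟩ := h v
  constructor
  · intro hv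
    by_contra hne
    by_cases ha : g v = a ∨ g v = b
    · rcases h2 ha with h3 | h3
      · exact hca (hv.symm.trans h3)
      · exact hcb (hv.symm.trans h3)
    · push Not at ha
      exact hne ((h1 ha.1 ha.2).symm.trans hv)
  · intro hv
    rw [h1 (by rw [hv]; exact hca) (by rw [hv]; exact hcb), hv]

lemma cl (g g' : Fin 9 → Fin 3) (a b : Fin 3) (hq : Qb g)
    (h : ∀ v, (g v ≠ a → g v ≠ b → g' v = g v) ∧ ((g v = a ∨ g v = b) → (g' v = a ∨ g' v = b)))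
    (hs : ∀ j, 12 ∣ (∑ v, if g' v = j then (![1, 1, 9, 3, 3, 5, 7, 7, 9] : Fin 9 → ℕ) v else 0) + 1) :
    Qb g' := by
  obtain ⟨c, hc⟩ := third g g' a b h
  obtain ⟨q1, q2, q3, q4, q5, q6, q7, q8⟩ := hq
  refine chk c (g 0) (g 3) q5 (g 6) q6 q7 (g 2) (g 8) q8 (g' 0) (hc 0) (g' 1) ?_ (g' 2) (hc 2)
    (g' 3) (hc 3) (g' 4) ?_ (g' 5) ?_ (g' 6) (hc 6) (g' 7) ?_ (g' 8) (hc 8) ?_
  · rw [q1]; exact hc 1
  · rw [q2]; exact hc 4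
  · rw [q3]; exact hc 5
  · rw [q4]; exact hc 7
  · intro j
    have := Nat.mod_eq_zero_of_dvd (hs j)
    simpa [Fin.sum_univ_succ, add_assoc] using this

theorem main (hR : S_REAL) (hC : S_CLO) : S_N11 := by
  intro K _ s hs
  obtain ⟨r, rfl⟩ : ∃ r, s = r + 1 := ⟨s - 1, by omega⟩
  have h := gen hR hC K r 12 4 (4 * (r + 1) - 1) ![1, 1, 9, 3, 3, 5, 7, 7, 9] ![1, 1, 2]
    ![0, 0, 0, 1, 1, 1, 2, 2, 2] ![0, 1, 2, 0, 1, 2, 0, 1, 2] Qb (by omega) (by norm_num)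
    (by decide) (by decide) (by omega) (by decide) (by decide) (by decide) (by decide)
    (by unfold Qb; decide) cl 0 {0, 3} (by decide) (by decide) (by
      intro g hg a ha a' ha' hne
      obtain ⟨q1, q2, q3, q4, q5, q6, q7, q8⟩ := hg
      fin_cases ha <;> fin_cases ha'
      · exact absurd rfl hne
      · exact q5
      · exact q5.symm
      · exact absurd rfl hne)
  exact h

end Pool.Agent.Helper32.PQ.N11
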