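import Pool.Agent.Helper32.PQ.LK

set_option autoImplicit false
set_option linter.unusedSectionVars false

/-!
Four blocks, ten variables, groupings of type `(5,5)`.
-/

namespace Pool.Agent.Helper32.PQ.T3

open Finset Pool.Agent.Helper42.PQ Pool.Agent.Helper46.PV Pool.Agent.Helper32.PQ.LK

variable {ι : Type} [Fintype ι] [DecidableEq ι] {w : ι → ℕ} {d : ℕ}

lemma card_le_sg {Z : Finset ι} (hZ : Z ⊆ sp w) : Z.card ≤ sg w Z := by
  unfold sg
  rw [Finset.card_eq_sum_ones]
  exact Finset.sum_le_sum (fun i hi => Nat.one_le_iff_ne_zero.2 (mem_sp.1 (hZ hi)))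

lemma sg_pair {a b : ι} (h : a ≠ b) : sg w {a, b} = w a + w b := by
  unfold sg
  exact Finset.sum_pair h

lemma sg_single (a : ι) : sg w {a} = w a := by
  unfold sg
  exact Finset.sum_singleton _ _

/-- the four cells -/
lemma cells_data {A C : Finset ι} (hA : Fine w d A) (hC : Fine w d C) :
    sg w (A ∩ C) + sg w (A \ C) = 2 * d ∧ sg w (A ∩ C) + sg w (C \ A) = 2 * d ∧
    (A ∩ C).card + (A \ C).card = 5 ∧ (A ∩ C).card + (C \ A).card = 5 := by
  have h1 := sg_sdiff w (Finset.inter_subset_left : A ∩ C ⊆ A)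
  have h2 := sg_sdiff w (Finset.inter_subset_right : A ∩ C ⊆ C)
  rw [Finset.sdiff_inter_self_left] at h1
  rw [Finset.sdiff_inter_self_right] at h2
  have h3 := Finset.card_inter_add_card_sdiff A C
  have h4 := Finset.card_inter_add_card_sdiff C A
  rw [Finset.inter_comm] at h4
  have := hA.2.1
  have := hC.2.1
  have := hA.2.2
  have := hC.2.2
  omega

/-- a node inside `A \ C` -/
lemma node_left (hN : S_NODE) (D : Dat w d) {A C T R : Finset ι} (hA : Fine w d A)
    (hC : Fine w d C) (hT : T ⊆ A \ C) (hTc : T.card = 3) (hTs : d ≤ sg w T) (hR : R ⊆ A \ C)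
    (hRc : R.card = 2) (hRs : sg w R ≤ d) : Link w d A C := by
  obtain ⟨P, hP, y, hy, hyP, hPc, hPd, hd⟩ := slide w (A \ C) 2 d ⟨T, hT, hTc, hTs⟩
    ⟨R, hR, hRc, hRs⟩
  apply Link.right
  refine link_node hN D (P := P) (x := y) hA.1 Finset.sdiff_subset
    (hP.trans Finset.sdiff_subset) ?_ (Finset.mem_sdiff.1 hy).1 ?_ ⟨hPc, hyP, hPd, hd⟩
  · intro i hi
    have := Finset.mem_sdiff.1 (hP hi)
    exact Finset.mem_sdiff.2 ⟨hA.1 this.1, this.2⟩
  · have := Finset.mem_sdiff.1 hy
    exact Finset.mem_sdiff.2 ⟨hA.1 this.1, this.2⟩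

lemma node_right (hN : S_NODE) (D : Dat w d) {A C T R : Finset ι} (hA : Fine w d A)
    (hC : Fine w d C) (hT : T ⊆ C \ A) (hTc : T.card = 3) (hTs : d ≤ sg w T) (hR : R ⊆ C \ A)
    (hRc : R.card = 2) (hRs : sg w R ≤ d) : Link w d A C :=
  (node_left hN D hC hA hT hTc hTs hR hRc hRs).symm

/-- a pair of small weight in a set of four elements -/
lemma small_pair {U : Finset ι} (f : Fin 4 → ι) (hf : Function.Injective f) (hfU : ∀ i, f i ∈ U)
    (hs : ∑ i, w (f i) = sg w U) (hU : sg w U ≤ 2 * d) :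
    ∃ R ⊆ U, R.card = 2 ∧ sg w R ≤ d := by
  have h4 : ∑ i, w (f i) = w (f 0) + w (f 1) + w (f 2) + w (f 3) := Fin.sum_univ_four _
  have h01 : f 0 ≠ f 1 := fun h => absurd (hf h) (by decide)
  have h23 : f 2 ≠ f 3 := fun h => absurd (hf h) (by decide)
  by_cases h : w (f 0) + w (f 1) ≤ d
  · refine ⟨{f 0, f 1}, ?_, Finset.card_pair h01, by rw [sg_pair h01]; exact h⟩
    intro i hi
    rw [Finset.mem_insert, Finset.mem_singleton] at hi
    rcases hi with rfl | rfl <;> exact hfU _
  · refine ⟨{f 2, f 3}, ?_, Finset.card_pair h23, by rw [sg_pair h23]; omega⟩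
    intro i hi
    rw [Finset.mem_insert, Finset.mem_singleton] at hi
    rcases hi with rfl | rfl <;> exact hfU _

/-- the triples `f i, f j, g k` do not have the sum `d` -/
lemma no_triple {U V : Finset ι} {n : ℕ} (htr : ∀ W ⊆ sp w, W.card = 3 → sg w W ≠ d)
    (hU : U ⊆ sp w) (hV : V ⊆ sp w) (hUV : Disjoint U V) (f g : Fin n → ι)
    (hf : Function.Injective f) (hfU : ∀ i, f i ∈ U) (hgV : ∀ i, g i ∈ V) (i j k : Fin n)
    (hij : i ≠ j) : w (f i) + w (f j) + w (g k) ≠ d := by
  have h1 : f i ≠ f j := fun h => hij (hf h)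
  have h2 : g k ∉ ({f i, f j} : Finset ι) := by
    intro h
    rw [Finset.mem_insert, Finset.mem_singleton] at h
    rcases h with h | h
    · exact Finset.disjoint_left.1 hUV (hfU i) (h ▸ hgV k)
    · exact Finset.disjoint_left.1 hUV (hfU j) (h ▸ hgV k)
  have h3 := htr (insert (g k) {f i, f j}) ?_ ?_
  · rw [sg_insert w h2, sg_pair h1] at h3
    intro h
    apply h3
    omega
  · intro x hx
    rw [Finset.mem_insert, Finset.mem_insert, Finset.mem_singleton] at hx
    rcases hx with rfl | rfl | rfl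
    · exact hV (hgV _)
    · exact hU (hfU _)
    · exact hU (hfU _)
  · rw [Finset.card_insert_of_notMem h2, Finset.card_pair h1]

lemma case_one (hN : S_NODE) (hR : S_REAL) (hC1 : S_C1) (D : Dat w d)
    (htr : ∀ W ⊆ sp w, W.card = 3 → sg w W ≠ d) {A C : Finset ι} (hA : Fine w d A)
    (hC : Fine w d C) (hj : (A ∩ C).card = 1) : Link w d A C := by
  obtain ⟨c1, c2, c3, c4⟩ := cells_data hA hC
  obtain ⟨x, hx⟩ := Finset.card_eq_one.1 hj
  have hxAC : x ∈ A ∩ C := by rw [hx]; exact Finset.mem_singleton_self _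
  obtain ⟨hxA, hxC⟩ := Finset.mem_inter.1 hxAC
  rw [hx, sg_single] at c1 c2
  obtain ⟨f, hf, hfU, hfs, hfe⟩ := enum (w := w) (A \ C) 4 (by omega)
  obtain ⟨g, hg, hgV, hgs, hge⟩ := enum (w := w) (C \ A) 4 (by omega)
  have hUsp : A \ C ⊆ sp w := Finset.sdiff_subset.trans hA.1
  have hVsp : C \ A ⊆ sp w := Finset.sdiff_subset.trans hC.1
  have hwx : 1 ≤ w x := Nat.one_le_iff_ne_zero.2 (mem_sp.1 (hA.1 hxA))
  have hd7 := D.d7
  have hd8 := D.d8
  by_cases h1 : ∃ i, d + w (f i) ≤ ∑ j, w (f j)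
  · obtain ⟨i, hi⟩ := h1
    obtain ⟨R, hR1, hR2, hR3⟩ := small_pair (d := d) f hf hfU hfe (by omega)
    refine node_left hN D hA hC (T := (A \ C).erase (f i)) (Finset.erase_subset _ _) ?_ ?_
      hR1 hR2 hR3
    · rw [Finset.card_erase_of_mem (hfU i)]
      omega
    · have := sg_erase w (hfU i)
      omega
  by_cases h2 : ∃ i, d + w (g i) ≤ ∑ j, w (g j)
  · obtain ⟨i, hi⟩ := h2
    obtain ⟨R, hR1, hR2, hR3⟩ := small_pair (d := d) g hg hgV hge (by omega)
    refine node_right hN D hA hC (T := (C \ A).erase (g i)) (Finset.erase_subset _ _) ?_ ?_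
      hR1 hR2 hR3
    · rw [Finset.card_erase_of_mem (hgV i)]
      omega
    · have := sg_erase w (hgV i)
      omega
  push Not at h1 h2
  have hdis : Disjoint (A \ C) (C \ A) := by
    rw [Finset.disjoint_left]
    intro i hi hi'
    exact (Finset.mem_sdiff.1 hi).2 (Finset.mem_sdiff.1 hi').1
  obtain ⟨i, j, k, l, hij, hkl, hsum⟩ := hC1 d (by omega) (fun i => w (f i)) (fun i => w (g i))
    (fun i => Nat.one_le_iff_ne_zero.2 (mem_sp.1 (hUsp (hfU i))))
    (fun i => Nat.one_le_iff_ne_zero.2 (mem_sp.1 (hVsp (hgV i)))) (by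
      show ∑ i, w (f i) = ∑ i, w (g i)
      omega) h1 h2
    (fun i j k hij => no_triple htr hUsp hVsp hdis f g hf hfU hgV i j k hij)
    (fun i j k hij => no_triple htr hVsp hUsp hdis.symm g f hg hgV hfU i j k hij)
  have hfij : f i ≠ f j := fun h => hij (hf h)
  have hgkl : g k ≠ g l := fun h => hkl (hg h)
  set P : Finset ι := {f i, f j} with hP
  set Q : Finset ι := {g k, g l} with hQ
  have hPU : P ⊆ A \ C := by
    intro a ha
    rw [hP, Finset.mem_insert, Finset.mem_singleton] at ha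
    rcases ha with rfl | rfl <;> exact hfU _
  have hQV : Q ⊆ C \ A := by
    intro a ha
    rw [hQ, Finset.mem_insert, Finset.mem_singleton] at ha
    rcases ha with rfl | rfl <;> exact hgV _
  have hPc : P.card = 2 := Finset.card_pair hfij
  have hQc : Q.card = 2 := Finset.card_pair hgkl
  have hPs : sg w P = w (f i) + w (f j) := sg_pair hfij
  have hQs : sg w Q = w (g k) + w (g l) := sg_pair hgkl
  -- the sum of `P` is small
  have hPd : sg w P < d := by
    obtain ⟨m, hm1, hm2⟩ : ∃ m : Fin 4, m ≠ i ∧ m ≠ j := by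
      have : ∀ i j : Fin 4, ∃ m : Fin 4, m ≠ i ∧ m ≠ j := by decide
      exact this i j
    have h3 : P ⊆ (A \ C).erase (f m) := by
      intro a ha
      rw [Finset.mem_erase]
      refine ⟨?_, hPU ha⟩
      rw [hP, Finset.mem_insert, Finset.mem_singleton] at ha
      rcases ha with rfl | rfl
      · exact fun h => hm1 (hf h).symm
      · exact fun h => hm2 (hf h).symm
    have h4 := sg_mono w h3
    have h5 := sg_erase w (hfU m)
    have h6 := h1 m
    omega
  have hRsg := sg_sdiff w hPU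
  have hRc : ((A \ C) \ P).card = 2 := by
    rw [Finset.card_sdiff_of_subset hPU]
    omega
  have hRd : sg w ((A \ C) \ P) < d := by
    have h3 : (A \ C) \ P ⊆ (A \ C).erase (f i) := by
      intro a ha
      rw [Finset.mem_sdiff] at ha
      rw [Finset.mem_erase]
      refine ⟨fun h => ha.2 ?_, ha.1⟩
      rw [h, hP]
      exact Finset.mem_insert_self _ _
    have h4 := sg_mono w h3
    have h5 := sg_erase w (hfU i)
    have h6 := h1 i
    omega
  have hxP : x ∉ P := fun h => (Finset.mem_sdiff.1 (hPU h)).2 hxC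
  have hxQ : x ∉ Q := fun h => (Finset.mem_sdiff.1 (hQV h)).2 hxA
  -- first exchange
  obtain ⟨hF1, hL1⟩ := exch hN D (P := P) (Q := Q) (R := (A \ C) \ P) (z := x) hA
    (hPU.trans Finset.sdiff_subset) (fun a ha => Finset.mem_sdiff.2
      ⟨hVsp (hQV ha), (Finset.mem_sdiff.1 (hQV ha)).2⟩) (by rw [hPc, hQc]) (by rw [hPs, hQs, hsum])
    (Finset.sdiff_subset_sdiff Finset.sdiff_subset (Finset.Subset.refl _))
    (Finset.mem_sdiff.2 ⟨hxA, hxP⟩) ⟨hRc, fun h => (Finset.mem_sdiff.1
      (Finset.mem_sdiff.1 h).1).2 hxC, hRd.le, by omega⟩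
  -- second exchange
  obtain ⟨hF2, hL2⟩ := exch hN D (A := (A \ P) ∪ Q) (P := (A \ C) \ P) (Q := (C \ A) \ Q) (R := Q)
    (z := x) hF1
    (fun a ha => Finset.mem_union_left _ (Finset.mem_sdiff.2 ⟨(Finset.mem_sdiff.1
      (Finset.mem_sdiff.1 ha).1).1, (Finset.mem_sdiff.1 ha).2⟩))
    (by
      intro a ha
      obtain ⟨ha1, ha2⟩ := Finset.mem_sdiff.1 ha
      refine Finset.mem_sdiff.2 ⟨hVsp ha1, fun h => ?_⟩
      rcases Finset.mem_union.1 h with h | h
      · exact (Finset.mem_sdiff.1 ha1).2 (Finset.mem_sdiff.1 h).1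
      · exact ha2 h)
    (by
      rw [hRc, Finset.card_sdiff_of_subset hQV]
      omega)
    (by
      have := sg_sdiff w hQV
      omega)
    (by
      intro a ha
      refine Finset.mem_sdiff.2 ⟨Finset.mem_union_right _ ha, fun h => ?_⟩
      exact (Finset.mem_sdiff.1 (hQV ha)).2 (Finset.mem_sdiff.1 (Finset.mem_sdiff.1 h).1).1)
    (Finset.mem_sdiff.2 ⟨Finset.mem_union_left _ (Finset.mem_sdiff.2 ⟨hxA, hxP⟩), fun h =>
      (Finset.mem_sdiff.1 (Finset.mem_sdiff.1 h).1).2 hxC⟩)
    ⟨hQc, hxQ, by omega, by omega⟩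
  have hfin : ((A \ P ∪ Q) \ ((A \ C) \ P)) ∪ ((C \ A) \ Q) = C := by
    ext a
    have e1 : a ∈ P → a ∈ A ∧ a ∉ C := fun h => Finset.mem_sdiff.1 (hPU h)
    have e2 : a ∈ Q → a ∈ C ∧ a ∉ A := fun h => Finset.mem_sdiff.1 (hQV h)
    simp only [Finset.mem_union, Finset.mem_sdiff]
    tauto
  rw [hfin] at hL2
  exact Link.trans hR D hF1 hL1 hL2

lemma case_two (hN : S_NODE) (hR : S_REAL) (hSP : S_SPOS) (hNOD : S_NOD) (hC2 : S_C2)
    (D : Dat w d) (htr : ∀ W ⊆ sp w, W.card = 3 → sg w W ≠ d) {A C : Finset ι}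
    (hA : Fine w d A) (hC : Fine w d C) (hj : (A ∩ C).card = 2) : Link w d A C := by
  obtain ⟨c1, c2, c3, c4⟩ := cells_data hA hC
  have hUsp : A \ C ⊆ sp w := Finset.sdiff_subset.trans hA.1
  have hVsp : C \ A ⊆ sp w := Finset.sdiff_subset.trans hC.1
  have hXsp : A ∩ C ⊆ sp w := Finset.inter_subset_left.trans hA.1
  obtain ⟨f, hf, hfU, hfs, hfe⟩ := enum (w := w) (A \ C) 3 (by omega)
  obtain ⟨g, hg, hgV, hgs, hge⟩ := enum (w := w) (C \ A) 3 (by omega)
  have hd7 := D.d7
  have hd8 := D.d8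
  by_cases hbig : d ≤ sg w (A \ C)
  · by_cases hp : ∃ i j, i ≠ j ∧ w (f i) + w (f j) ≤ d
    · obtain ⟨i, j, hij, hle⟩ := hp
      have hfij : f i ≠ f j := fun h => hij (hf h)
      refine node_left hN D hA hC (T := A \ C) (R := {f i, f j}) (Finset.Subset.refl _) (by omega)
        hbig ?_ (Finset.card_pair hfij) (by rw [sg_pair hfij]; exact hle)
      intro a ha
      rw [Finset.mem_insert, Finset.mem_singleton] at ha
      rcases ha with rfl | rfl <;> exact hfU _
    · push Not at hp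
      have p1 := hp 0 1 (by decide)
      have p2 := hp 0 2 (by decide)
      have p3 := hp 1 2 (by decide)
      have h3 : ∑ i, w (f i) = w (f 0) + w (f 1) + w (f 2) := Fin.sum_univ_three _
      have hXs : sg w (A ∩ C) ≤ 2 := by omega
      have hone : ∀ Z : Finset ι, Z ⊆ sp w → Z.card = 2 → sg w Z ≤ 2 → ∀ a ∈ Z, w a ≤ 1 := by
        intro Z hZ hZc hZs a ha
        have e1 := sg_erase w ha
        have e2 := card_le_sg ((Finset.erase_subset a Z).trans hZ)
        rw [Finset.card_erase_of_mem ha, hZc] at e2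
        omega
      have hYc : (sp w \ (A ∪ C)).card = 2 := by
        rw [Finset.card_sdiff_of_subset (Finset.union_subset hA.1 hC.1), D.card]
        have := Finset.card_union_add_card_inter A C
        have := hA.2.1
        have := hC.2.1
        omega
      have hYs : sg w (sp w \ (A ∪ C)) ≤ 2 := by
        have e1 := sg_sdiff w (Finset.union_subset hA.1 hC.1)
        rw [sg_sp, D.sum] at e1
        have e2 : sg w (A ∪ C) = sg w A + sg w (C \ A) := by
          rw [← sg_union w Finset.disjoint_sdiff, Finset.union_sdiff_self_eq_union]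
        have := hA.2.2
        omega
      apply Link.right
      apply link_pos hSP D
      intro a ha
      rw [Finset.mem_sdiff]
      constructor
      · intro haA
        refine ⟨hA.1 haA, fun haC => ?_⟩
        have := hone (A ∩ C) hXsp hj hXs a (Finset.mem_inter.2 ⟨haA, haC⟩)
        omega
      · rintro ⟨ha1, ha2⟩
        by_contra haA
        have := hone (sp w \ (A ∪ C)) Finset.sdiff_subset hYc hYs a (Finset.mem_sdiff.2 ⟨ha1, by
          rw [Finset.mem_union]
          tauto⟩)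
        omega
  · push Not at hbig
    obtain ⟨x, y, hxy, hX⟩ := Finset.card_eq_two.1 hj
    have hxX : x ∈ A ∩ C := by rw [hX]; simp
    have hyX : y ∈ A ∩ C := by rw [hX]; simp
    rw [hX, sg_pair hxy] at c1 c2
    have hdis : Disjoint (A \ C) (C \ A) := by
      rw [Finset.disjoint_left]
      intro i hi hi'
      exact (Finset.mem_sdiff.1 hi).2 (Finset.mem_sdiff.1 hi').1
    obtain ⟨i, j, hij, hor⟩ := hC2 d (by omega) (fun i => w (f i)) (fun i => w (g i)) (w x) (w y)
      (fun i => Nat.one_le_iff_ne_zero.2 (mem_sp.1 (hUsp (hfU i))))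
      (fun i => Nat.one_le_iff_ne_zero.2 (mem_sp.1 (hVsp (hgV i))))
      (Nat.one_le_iff_ne_zero.2 (mem_sp.1 (hXsp hxX)))
      (Nat.one_le_iff_ne_zero.2 (mem_sp.1 (hXsp hyX)))
      (by show ∑ i, w (f i) = ∑ i, w (g i); omega)
      (by show ∑ i, w (f i) < d; omega)
      (by show ∑ i, w (f i) + (w x + w y) = 2 * d; omega)
      (fun i j k hij => no_triple htr hUsp hVsp hdis f g hf hfU hgV i j k hij)
      (fun i j k hij => no_triple htr hVsp hUsp hdis.symm g f hg hgV hfU i j k hij)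
    -- rename
    obtain ⟨x', y', hx', hy', hne, hle, hsumX⟩ : ∃ x' y', x' ∈ A ∩ C ∧ y' ∈ A ∩ C ∧ x' ≠ y' ∧
        w x' + w (f i) ≤ d ∧ w x' + w y' = w x + w y := by
      rcases hor with h | h
      · exact ⟨x, y, hxX, hyX, hxy, h, rfl⟩
      · exact ⟨y, x, hyX, hxX, hxy.symm, h, add_comm _ _⟩
    obtain ⟨hxA, hxC⟩ := Finset.mem_inter.1 hx'
    obtain ⟨hyA, hyC⟩ := Finset.mem_inter.1 hy'
    obtain ⟨haA, haC⟩ := Finset.mem_sdiff.1 (hfU i)
    obtain ⟨hbC, hbA⟩ := Finset.mem_sdiff.1 (hgV j)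
    set a := f i with ha
    set b := g j with hb
    have haU : a ∈ A \ C := hfU i
    have hbV : b ∈ C \ A := hgV j
    have hsmall : w a + 2 ≤ sg w (A \ C) := by
      have e1 := sg_erase w haU
      have e2 := card_le_sg ((Finset.erase_subset a (A \ C)).trans hUsp)
      rw [Finset.card_erase_of_mem haU] at e2
      omega
    -- first exchange
    have hcard4 : (A \ {a}).card = 4 := by
      rw [Finset.card_sdiff_of_subset (Finset.singleton_subset_iff.2 haA), hA.2.1,
        Finset.card_singleton]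
    have hsg4 : sg w (A \ {a}) + w a = 2 * d := by
      have := sg_sdiff w (Finset.singleton_subset_iff.2 haA)
      rw [sg_single, hA.2.2] at this
      exact this
    obtain ⟨P₁, z₁, hP₁, hz₁, hB₁⟩ := hNOD ι w d (A \ {a}) (by omega) (by rw [hcard4]; omega)
      (by rw [hcard4]; omega)
    obtain ⟨hF1, hL1⟩ := exch hN D (P := {a}) (Q := {b}) (R := P₁) (z := z₁) hA
      (Finset.singleton_subset_iff.2 haA) (Finset.singleton_subset_iff.2
        (Finset.mem_sdiff.2 ⟨hC.1 hbC, hbA⟩)) rfl (by rw [sg_single, sg_single, hij]) hP₁ hz₁ hB₁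
    have hxa : x' ≠ a := fun h => haC (h ▸ hxC)
    have hya : y' ≠ a := fun h => haC (h ▸ hyC)
    have hxb : x' ≠ b := fun h => hbA (h ▸ hxA)
    have hyb : y' ≠ b := fun h => hbA (h ▸ hyA)
    -- second exchange
    obtain ⟨hF2, hL2⟩ := exch hN D (A := (A \ {a}) ∪ {b}) (P := (A \ C) \ {a})
      (Q := (C \ A) \ {b}) (R := {x', b}) (z := y') hF1
      (fun c hc => Finset.mem_union_left _ (Finset.mem_sdiff.2 ⟨(Finset.mem_sdiff.1
        (Finset.mem_sdiff.1 hc).1).1, (Finset.mem_sdiff.1 hc).2⟩))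
      (by
        intro c hc
        obtain ⟨hc1, hc2⟩ := Finset.mem_sdiff.1 hc
        refine Finset.mem_sdiff.2 ⟨hVsp hc1, fun h => ?_⟩
        rcases Finset.mem_union.1 h with h | h
        · exact (Finset.mem_sdiff.1 hc1).2 (Finset.mem_sdiff.1 h).1
        · exact hc2 h)
      (by
        rw [Finset.card_sdiff_of_subset (Finset.singleton_subset_iff.2 haU),
          Finset.card_sdiff_of_subset (Finset.singleton_subset_iff.2 hbV),
          Finset.card_singleton, Finset.card_singleton]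
        omega)
      (by
        have e1 := sg_sdiff w (Finset.singleton_subset_iff.2 haU)
        have e2 := sg_sdiff w (Finset.singleton_subset_iff.2 hbV)
        rw [sg_single] at e1 e2
        omega)
      (by
        intro c hc
        rw [Finset.mem_insert, Finset.mem_singleton] at hc
        rcases hc with rfl | rfl
        · simp only [Finset.mem_sdiff, Finset.mem_union, Finset.mem_singleton]
          tauto
        · simp only [Finset.mem_sdiff, Finset.mem_union, Finset.mem_singleton]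
          tauto)
      (by
        simp only [Finset.mem_sdiff, Finset.mem_union, Finset.mem_singleton]
        tauto)
      ⟨Finset.card_pair hxb, by
        rw [Finset.mem_insert, Finset.mem_singleton]
        rintro (h | h)
        · exact hne h.symm
        · exact hyb h, by rw [sg_pair hxb]; omega, by rw [sg_pair hxb]; omega⟩
    have hfin : ((A \ {a} ∪ {b}) \ ((A \ C) \ {a})) ∪ ((C \ A) \ {b}) = C := by
      ext c
      simp only [Finset.mem_union, Finset.mem_sdiff, Finset.mem_singleton]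
      constructor
      · rintro (⟨⟨h1, h2⟩ | h1, h3⟩ | ⟨⟨h1, h2⟩, h3⟩)
        · by_contra hc
          exact h3 ⟨⟨h1, hc⟩, h2⟩
        · rw [h1]; exact hbC
        · exact h1
      · intro hc
        by_cases hcA : c ∈ A
        · left
          refine ⟨Or.inl ⟨hcA, fun h => haC (h ▸ hc)⟩, fun h => h.1.2 hc⟩
        · by_cases hcb : c = b
          · left
            exact ⟨Or.inr hcb, fun h => hcA h.1.1⟩
          · right
            exact ⟨⟨hc, hcA⟩, hcb⟩
    rw [hfin] at hL2
    exact Link.trans hR D hF1 hL1 hL2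

lemma small (hN : S_NODE) (hR : S_REAL) (hSA : S_SAME) (hSP : S_SPOS) (hNOD : S_NOD) (hC1 : S_C1)
    (hC2 : S_C2) (D : Dat w d) (htr : ∀ W ⊆ sp w, W.card = 3 → sg w W ≠ d) {A C : Finset ι}
    (hA : Fine w d A) (hC : Fine w d C) (hj : (A ∩ C).card ≤ 2) : Link w d A C := by
  rcases (by omega : (A ∩ C).card = 0 ∨ (A ∩ C).card = 1 ∨ (A ∩ C).card = 2) with h | h | h
  · have h1 : C = sp w \ A := by
      apply Finset.eq_of_subset_of_card_le
      · intro i hi
        refine Finset.mem_sdiff.2 ⟨hC.1 hi, fun hiA => ?_⟩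
        rw [Finset.card_eq_zero] at h
        have : i ∈ A ∩ C := Finset.mem_inter.2 ⟨hiA, hi⟩
        rw [h] at this
        exact absurd this (Finset.notMem_empty i)
      · rw [(fine_compl D hA).2.1, hC.2.1]
    rw [h1]
    intro S T hS hT
    exact link_refl hSA D (sp w \ A) S T (cf_compl hS) hT
  · exact case_one hN hR hC1 D htr hA hC h
  · exact case_two hN hR hSP hNOD hC2 D htr hA hC h

theorem main (hN : S_NODE) (hR : S_REAL) (hSA : S_SAME) (hSP : S_SPOS) (hNOD : S_NOD)
    (hC1 : S_C1) (hC2 : S_C2) : S_T3 := by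
  intro ι _ _ d w hd7 hd8 hsum hcard hih htr ρ κ S T hρ hκ hS hT
  have D : Dat w d := ⟨hd7, hd8, hsum, hcard, hih⟩
  have key : ∀ (ρ : ι → Fin 2) (S : Multiset (G ι d 3)), (cls w ρ 0).card = 5 →
      Cf (r := 2) w ρ S → Fine w d (cls w ρ 0) ∧ Cf (r := 2) w (rh (cls w ρ 0)) S := by
    intro ρ S h hS
    refine ⟨⟨Finset.filter_subset _ _, h, ?_⟩, cf_congr ?_ hS⟩
    · obtain ⟨t, _, h1, h2⟩ := hS.NG 0
      rw [h] at h1
      have : t = 2 := by omega
      rw [h2, this]
    · intro i hi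
      unfold rh
      by_cases h0 : ρ i = 0
      · rw [if_pos (mem_cls.2 ⟨hi, h0⟩), h0]
      · rw [if_neg (fun hc => h0 (mem_cls.1 hc).2)]
        revert h0
        generalize ρ i = z
        revert z
        decide
  obtain ⟨hA, hS'⟩ := key ρ S hρ hS
  obtain ⟨hC, hT'⟩ := key κ T hκ hT
  have hL : Link w d (cls w ρ 0) (cls w κ 0) := by
    by_cases hj : ((cls w ρ 0) ∩ (cls w κ 0)).card ≤ 2
    · exact small hN hR hSA hSP hNOD hC1 hC2 D htr hA hC hj
    · apply Link.right
      apply small hN hR hSA hSP hNOD hC1 hC2 D htr hA (fine_compl D hC)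
      have h1 := Finset.card_inter_add_card_sdiff (cls w ρ 0) (cls w κ 0)
      have h2 : (cls w ρ 0) ∩ (sp w \ cls w κ 0) = (cls w ρ 0) \ (cls w κ 0) := by
        ext i
        simp only [Finset.mem_inter, Finset.mem_sdiff]
        have := @hA.1 i
        tauto
      rw [h2]
      omega
  exact hL S T hS' hT'

end Pool.Agent.Helper32.PQ.T3
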