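import Pool.Agent.Helper32.PQ.LK

set_option autoImplicit false
set_option linter.unusedSectionVars false

/-!
Four blocks, eleven variables.
-/

namespace Pool.Agent.Helper32.PQ.T5

open Finset Pool.Agent.Helper42.PQ Pool.Agent.Helper46.PV Pool.Agent.Helper32.PQ.LK

variable {ι : Type} [Fintype ι] [DecidableEq ι] {w : ι → ℕ} {d : ℕ}

/-- the data of the case -/
structure Da (w : ι → ℕ) (d : ℕ) : Prop where
  d7 : 7 ≤ d
  d8 : d ≤ 8
  sum : ∑ i, w i = 4 * d
  card : (sp w).card = 11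
  ih : ∀ w' : ι → ℕ, ∑ i, w' i = 3 * d → Conn ι d 3 3 w'

/-- triples of sum `d` -/
def Tr (w : ι → ℕ) (d : ℕ) (W : Finset ι) : Prop := W ⊆ sp w ∧ W.card = 3 ∧ sg w W = d

/-- the configuration contains the block of `W` -/
def Has (w : ι → ℕ) (W : Finset ι) (S : Multiset (G ι d 3)) : Prop := ∃ m ∈ S, m.1 = res w W

lemma sum_res (w : ι → ℕ) (W : Finset ι) : ∑ i, res w W i = sg w W := by
  unfold res sg
  rw [Finset.sum_ite_mem, Finset.univ_inter]

lemma common (D : Da w d) {W : Finset ι} {S T : Multiset (G ι d 3)} (hS : Has w W S)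
    (hT : Has w W T) (hSw : Wt S = w) (hTw : Wt T = w) : Cn S T := by
  obtain ⟨m, hm, e⟩ := hS
  obtain ⟨m', hm', e'⟩ := hT
  have hmm : m = m' := Subtype.ext (e.trans e'.symm)
  subst hmm
  have := D.d7
  have c1 := card_of_Wt (by omega) hSw D.sum
  have c2 := card_of_Wt (by omega) hTw D.sum
  refine Cn.of_common (k := 3) hm hm' c1 c2 hSw hTw (D.ih _ ?_)
  have h1 := sum_sub_of_le w m.1 (fun i => by rw [← hSw]; exact le_Wt hm i)
  rw [m.2.1, D.sum] at h1
  omega

/-- the grouping of two triples -/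
def rp (W V : Finset ι) : ι → Fin 3 := fun i => if i ∈ W then 0 else if i ∈ V then 1 else 2

lemma exPair (hR : S_REAL) (hPUR : S_PUR) (D : Da w d) {W V : Finset ι} (hW : Tr w d W)
    (hV : Tr w d V) (hd : Disjoint W V) :
    ∃ S : Multiset (G ι d 3), Wt S = w ∧ Has w W S ∧ Has w V S := by
  have := D.d7
  have k0 : cls w (rp W V) 0 = W := by
    ext i
    rw [mem_cls]
    unfold rp
    constructor
    · rintro ⟨_, h⟩
      by_contra hc
      rw [if_neg hc] at h
      split_ifs at h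
      · exact absurd h (by decide)
      · exact absurd h (by decide)
    · intro h
      exact ⟨mem_sp.1 (hW.1 h), if_pos h⟩
  have k1 : cls w (rp W V) 1 = V := by
    ext i
    rw [mem_cls]
    unfold rp
    constructor
    · rintro ⟨_, h⟩
      by_contra hc
      split_ifs at h
      · exact absurd h (by decide)
      · exact absurd h (by decide)
    · intro h
      have hi : i ∉ W := fun h' => Finset.disjoint_left.1 hd h' h
      exact ⟨mem_sp.1 (hV.1 h), by rw [if_neg hi, if_pos h]⟩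
  have k2 : cls w (rp W V) 2 = sp w \ (W ∪ V) := by
    ext i
    rw [mem_cls, Finset.mem_sdiff, mem_sp, Finset.mem_union]
    unfold rp
    constructor
    · rintro ⟨h0, h⟩
      refine ⟨h0, ?_⟩
      rintro (hc | hc)
      · rw [if_pos hc] at h
        exact absurd h (by decide)
      · split_ifs at h
        · exact absurd h (by decide)
        · exact absurd h (by decide)
    · rintro ⟨h0, h⟩
      push Not at h
      exact ⟨h0, by rw [if_neg h.1, if_neg h.2]⟩
  have hsub : W ∪ V ⊆ sp w := Finset.union_subset hW.1 hV.1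
  have hng : NG w 2 d (rp W V) := by
    intro j
    fin_cases j
    · refine ⟨1, le_rfl, ?_, ?_⟩
      · simp only [Fin.zero_eta]
        rw [k0, hW.2.1]
      · simp only [Fin.zero_eta]
        rw [k0, hW.2.2, one_mul]
    · refine ⟨1, le_rfl, ?_, ?_⟩
      · simp only [Fin.mk_one]
        rw [k1, hV.2.1]
      · simp only [Fin.mk_one]
        rw [k1, hV.2.2, one_mul]
    · have e1 : (cls w (rp W V) 2).card = 2 * 2 + 1 := by
        rw [k2, Finset.card_sdiff_of_subset hsub, D.card, Finset.card_union_of_disjoint hd, hW.2.1,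
          hV.2.1]
      have e2 : sg w (cls w (rp W V) 2) = 2 * d := by
        have h1 := sg_sdiff w hsub
        rw [sg_sp, D.sum, sg_union w hd, hW.2.2, hV.2.2] at h1
        rw [k2]
        omega
      exact ⟨2, by norm_num, e1, e2⟩
  obtain ⟨S, hS⟩ := hR ι d 2 3 w (rp W V) le_rfl (by omega) hng
  refine ⟨S, hS.Wt_eq, ?_, ?_⟩
  · have := hPUR ι d 2 3 w (rp W V) 0 S (by norm_num) hS (by rw [k0, hW.2.1])
    rw [k0] at this
    exact this
  · have := hPUR ι d 2 3 w (rp W V) 1 S (by norm_num) hS (by rw [k1, hV.2.1])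
    rw [k1] at this
    exact this

/-- disjoint triples -/
lemma L0 (hR : S_REAL) (hPUR : S_PUR) (D : Da w d) {W V : Finset ι} (hW : Tr w d W)
    (hV : Tr w d V) (hd : Disjoint W V) {S T : Multiset (G ι d 3)} (hS : Has w W S)
    (hT : Has w V T) (hSw : Wt S = w) (hTw : Wt T = w) : Cn S T := by
  obtain ⟨U, hU, hU1, hU2⟩ := exPair hR hPUR D hW hV hd
  exact (common D hS hU1 hSw hU).trans (common D hU2 hT hU hTw)

/-- triples which meet in two elements -/
lemma L2 (hR : S_REAL) (hPUR : S_PUR) (D : Da w d) {W W' V : Finset ι} (hW : Tr w d W)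
    (hW' : Tr w d W') (hV : Tr w d V) (hd : Disjoint W W') (hc : (W ∩ V).card = 2)
    {S T : Multiset (G ι d 3)} (hS : Has w W S) (hS' : Has w W' S)
    (hT : Has w V T) (hSw : Wt S = w) (hTw : Wt T = w) : Cn S T := by
  by_cases hd' : Disjoint W' V
  · exact L0 hR hPUR D hW' hV hd' hS' hT hSw hTw
  -- `W = (W ∩ V) + x`, `V = (W ∩ V) + y`, `y ∈ W'`
  have c1 := Finset.card_inter_add_card_sdiff W V
  have c2 := Finset.card_inter_add_card_sdiff V W
  rw [Finset.inter_comm V W] at c2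
  obtain ⟨x, hx⟩ := Finset.card_eq_one.1 (show (W \ V).card = 1 by rw [hW.2.1] at c1; omega)
  obtain ⟨y, hy⟩ := Finset.card_eq_one.1 (show (V \ W).card = 1 by rw [hV.2.1] at c2; omega)
  have hx' : x ∈ W \ V := by rw [hx]; exact Finset.mem_singleton_self _
  have hy' : y ∈ V \ W := by rw [hy]; exact Finset.mem_singleton_self _
  obtain ⟨hxW, hxV⟩ := Finset.mem_sdiff.1 hx'
  obtain ⟨hyV, hyW⟩ := Finset.mem_sdiff.1 hy'
  have hyW' : y ∈ W' := by
    rw [Finset.not_disjoint_iff] at hd'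
    obtain ⟨z, hz1, hz2⟩ := hd'
    have : z ∈ V \ W := Finset.mem_sdiff.2 ⟨hz2, fun h => Finset.disjoint_left.1 hd h hz1⟩
    rw [hy, Finset.mem_singleton] at this
    rw [← this]
    exact hz1
  have hxW' : x ∉ W' := fun h => Finset.disjoint_left.1 hd hxW h
  have hwxy : w x = w y := by
    have e1 := sg_sdiff w (Finset.inter_subset_left : W ∩ V ⊆ W)
    have e2 := sg_sdiff w (Finset.inter_subset_right : W ∩ V ⊆ V)
    rw [Finset.sdiff_inter_self_left, hx, hW.2.2] at e1
    rw [Finset.sdiff_inter_self_right, hy, hV.2.2] at e2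
    have e3 : sg w {x} = w x := by unfold sg; exact Finset.sum_singleton _ _
    have e4 : sg w {y} = w y := by unfold sg; exact Finset.sum_singleton _ _
    omega
  -- the new triple
  have hW'' := sg_exch w (R := W') hyW' hxW'
  obtain ⟨n1, n2⟩ := hW''
  obtain ⟨mV, hmV⟩ := mkG (s := 3) (res w V) (by rw [sum_res, hV.2.2]) V hV.2.1.le
    (fun i hi => if_neg hi)
  obtain ⟨mN, hmN⟩ := mkG (s := 3) (d := d) (res w (insert x (W'.erase y)))
    (by rw [sum_res]; have := hW'.2.2; omega) (insert x (W'.erase y)) (by rw [n2, hW'.2.1])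
    (fun i hi => if_neg hi)
  obtain ⟨m, hm, hme⟩ := hS
  obtain ⟨m', hm', hme'⟩ := hS'
  have hne : m' ≠ m := by
    intro h
    have h1 : m'.1 x = m.1 x := by rw [h]
    rw [hme, hme'] at h1
    unfold res at h1
    rw [if_neg hxW', if_pos hxW] at h1
    exact mem_sp.1 (hW.1 hxW) h1.symm
  obtain ⟨S₁, rfl⟩ := exists_cons hm
  have hm1 : m' ∈ S₁ := by
    rcases Multiset.mem_cons.1 hm' with h | h
    · exact absurd h hne
    · exact h
  obtain ⟨S₂, rfl⟩ := exists_cons hm1
  have hvec : m.1 + m'.1 = mV.1 + mN.1 := by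
    rw [hme, hme', hmV, hmN]
    funext i
    simp only [Pi.add_apply]
    unfold res
    have a1 : i ∈ W → i ∉ W' := fun h h' => Finset.disjoint_left.1 hd h h'
    have a2 : i ∈ W → i ∉ V → i = x := by
      intro h h'
      have : i ∈ W \ V := Finset.mem_sdiff.2 ⟨h, h'⟩
      rwa [hx, Finset.mem_singleton] at this
    have a3 : i ∈ V → i ∉ W → i = y := by
      intro h h'
      have : i ∈ V \ W := Finset.mem_sdiff.2 ⟨h, h'⟩
      rwa [hy, Finset.mem_singleton] at this
    by_cases hix : i = x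
    · subst hix
      rw [if_pos hxW, if_neg hxW', if_neg hxV, if_pos (Finset.mem_insert_self _ _)]
      ring
    by_cases hiy : i = y
    · subst hiy
      have : i ∉ insert x (W'.erase i) := by
        rw [Finset.mem_insert, Finset.mem_erase]
        tauto
      rw [if_neg hyW, if_pos hyW', if_pos hyV, if_neg this]
      ring
    have h3 : i ∈ insert x (W'.erase y) ↔ i ∈ W' := by
      rw [Finset.mem_insert, Finset.mem_erase]
      tauto
    have h4 : i ∈ W ↔ i ∈ V := by tauto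
    by_cases h5 : i ∈ W
    · rw [if_pos h5, if_pos (h4.1 h5), if_neg (a1 h5), if_neg (fun h => a1 h5 (h3.1 h))]
    · rw [if_neg h5, if_neg (fun h => h5 (h4.2 h))]
      by_cases h6 : i ∈ W'
      · rw [if_pos h6, if_pos (h3.2 h6)]
      · rw [if_neg h6, if_neg (fun h => h6 (h3.1 h))]
  have hmove : Cn (m ::ₘ m' ::ₘ S₂) (mV ::ₘ mN ::ₘ S₂) := Cn.move S₂ hvec
  refine hmove.trans (common D ⟨mV, Multiset.mem_cons_self _ _, hmV⟩ hT ?_ hTw)
  rw [← hmove.Wt_eq]
  exact hSw

/-- a triple in the complement of `W ∪ V` -/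
lemma LK (hR : S_REAL) (hPUR : S_PUR) (D : Da w d) {W V : Finset ι} (hW : Tr w d W)
    (hV : Tr w d V) (hc : (W ∩ V).card = 1) (x : Fin 6 → ι)
    (hx : ∀ a ∈ sp w \ (W ∪ V), ∃ i, x i = a) {i j k : Fin 6} (hij : i < j) (hjk : j < k)
    (hs : w (x i) + w (x j) + w (x k) = d)
    {S T : Multiset (G ι d 3)} (hS : Has w W S)
    (hT : Has w V T) (hSw : Wt S = w) (hTw : Wt T = w) : Cn S T := by
  have hK : (sp w \ (W ∪ V)).card = 6 := by
    rw [Finset.card_sdiff_of_subset (Finset.union_subset hW.1 hV.1), D.card]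
    have := Finset.card_union_add_card_inter W V
    have := hW.2.1
    have := hV.2.1
    omega
  have hsub : sp w \ (W ∪ V) ⊆ Finset.univ.image x := by
    intro a ha
    obtain ⟨i, hi⟩ := hx a ha
    exact Finset.mem_image.2 ⟨i, Finset.mem_univ _, hi⟩
  have hle : (Finset.univ.image x).card ≤ 6 := by
    have := Finset.card_image_le (s := (Finset.univ : Finset (Fin 6))) (f := x)
    simpa using this
  have heq : sp w \ (W ∪ V) = Finset.univ.image x :=
    Finset.eq_of_subset_of_card_le hsub (by omega)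
  have hinj : Function.Injective x := by
    have h1 : (Finset.univ.image x).card = (Finset.univ : Finset (Fin 6)).card := by
      rw [← heq, hK]
      simp
    have h2 := Finset.card_image_iff.1 h1
    intro a b hab
    exact h2 (Finset.mem_coe.2 (Finset.mem_univ a)) (Finset.mem_coe.2 (Finset.mem_univ b)) hab
  have hmem : ∀ i, x i ∈ sp w \ (W ∪ V) := by
    intro i
    rw [heq]
    exact Finset.mem_image_of_mem x (Finset.mem_univ i)
  have n1 : x i ≠ x j := fun h => absurd (hinj h) hij.ne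
  have n2 : x i ≠ x k := fun h => absurd (hinj h) (hij.trans hjk).ne
  have n3 : x j ≠ x k := fun h => absurd (hinj h) hjk.ne
  have hUm : ∀ a ∈ ({x i, x j, x k} : Finset ι), a ∈ sp w ∧ a ∉ W ∧ a ∉ V := by
    intro a ha
    have h1 : a ∈ sp w \ (W ∪ V) := by
      rw [Finset.mem_insert, Finset.mem_insert, Finset.mem_singleton] at ha
      rcases ha with rfl | rfl | rfl <;> exact hmem _
    rw [Finset.mem_sdiff, Finset.mem_union] at h1
    tauto
  have n4 : x i ∉ ({x j, x k} : Finset ι) := by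
    rw [Finset.mem_insert, Finset.mem_singleton]
    tauto
  have hU : Tr w d {x i, x j, x k} := by
    refine ⟨fun a ha => (hUm a ha).1, Finset.card_eq_three.2 ⟨x i, x j, x k, n1, n2, n3, rfl⟩, ?_⟩
    rw [sg_insert w n4]
    have : sg w {x j, x k} = w (x j) + w (x k) := Finset.sum_pair n3
    rw [this]
    omega
  have hd1 : Disjoint W {x i, x j, x k} := by
    rw [Finset.disjoint_left]
    intro a ha ha'
    exact (hUm a ha').2.1 ha
  have hd2 : Disjoint ({x i, x j, x k} : Finset ι) V := by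
    rw [Finset.disjoint_left]
    intro a ha ha'
    exact (hUm a ha).2.2 ha'
  obtain ⟨U, hU1, hU2, hU3⟩ := exPair hR hPUR D hW hU hd1
  exact (common D hS hU2 hSw hU1).trans (L0 hR hPUR D hU hV hd2 hU3 hT hU1 hTw)

/-- pairs of triples in a configuration -/
def PC (w : ι → ℕ) (d : ℕ) (S : Multiset (G ι d 3)) (W V : Finset ι) : Prop :=
  Tr w d W ∧ Tr w d V ∧ Disjoint W V ∧ Has w W S ∧ Has w V S ∧
    ∃ (ρ : ι → Fin 3) (c : Fin 3), Cf (r := 2) w ρ S ∧ cls w ρ c = sp w \ (W ∪ V)

lemma pc_of (hPUR : S_PUR) {S : Multiset (G ι d 3)} (ρ : ι → Fin 3)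
    (hρ : Cf (r := 2) w ρ S) (a b c : Fin 3) (hab : a ≠ b) (hac : a ≠ c) (hbc : b ≠ c)
    (ha : (cls w ρ a).card = 3 ∧ sg w (cls w ρ a) = d)
    (hb : (cls w ρ b).card = 3 ∧ sg w (cls w ρ b) = d) : PC w d S (cls w ρ a) (cls w ρ b) := by
  refine ⟨⟨Finset.filter_subset _ _, ha.1, ha.2⟩, ⟨Finset.filter_subset _ _, hb.1, hb.2⟩, ?_,
    hPUR ι d 2 3 w ρ a S (by norm_num) hρ ha.1, hPUR ι d 2 3 w ρ b S (by norm_num) hρ hb.1,
    ρ, c, hρ, ?_⟩
  · rw [Finset.disjoint_left]
    intro i hi hi'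
    exact hab ((mem_cls.1 hi).2.symm.trans (mem_cls.1 hi').2)
  · ext i
    rw [mem_cls, Finset.mem_sdiff, Finset.mem_union, mem_cls, mem_cls, mem_sp]
    generalize ρ i = z
    have : ∀ a b c z : Fin 3, a ≠ b → a ≠ c → b ≠ c → (z = c ↔ ¬ z = a ∧ ¬ z = b) := by decide
    have := this a b c z hab hac hbc
    tauto

lemma exists_pc (hGRP : S_GRP) (hPUR : S_PUR) (D : Da w d) {S : Multiset (G ι d 3)}
    (hSw : Wt S = w) : ∃ W V, PC w d S W V := by
  have := D.d7
  have hc := card_of_Wt (by omega) hSw D.sum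
  obtain ⟨ρ, hρ⟩ := hGRP ι d 2 3 w S (by norm_num) (by norm_num) hSw (by rw [D.card, hc])
  have hng := hρ.NG
  choose t ht1 ht2 ht3 using hng
  have hsum : (sp w).card = ∑ j, (cls w ρ j).card := by
    unfold cls
    exact Finset.card_eq_sum_card_fiberwise (fun x _ => Finset.mem_coe.2 (Finset.mem_univ (ρ x)))
  rw [D.card, Fin.sum_univ_three, ht2, ht2, ht2] at hsum
  have g0 := ht1 0
  have g1 := ht1 1
  have g2 := ht1 2
  have hone : ∀ j, t j = 1 → (cls w ρ j).card = 3 ∧ sg w (cls w ρ j) = d := by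
    intro j hj
    rw [ht2, ht3, hj]
    omega
  rcases (by omega : (t 0 = 1 ∧ t 1 = 1) ∨ (t 0 = 1 ∧ t 2 = 1) ∨ (t 1 = 1 ∧ t 2 = 1)) with
    h | h | h
  · exact ⟨_, _, pc_of hPUR ρ hρ 0 1 2 (by decide) (by decide) (by decide) (hone _ h.1)
      (hone _ h.2)⟩
  · exact ⟨_, _, pc_of hPUR ρ hρ 0 2 1 (by decide) (by decide) (by decide) (hone _ h.1)
      (hone _ h.2)⟩
  · exact ⟨_, _, pc_of hPUR ρ hρ 1 2 0 (by decide) (by decide) (by decide) (hone _ h.1)
      (hone _ h.2)⟩

/-- splitting of a triple by a pair of triples -/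
lemma split (W V V' : Finset ι) (hd : Disjoint V V') :
    sg w (W ∩ V) + sg w (W ∩ V') + sg w (W \ (V ∪ V')) = sg w W ∧
    (W ∩ V).card + (W ∩ V').card + (W \ (V ∪ V')).card = W.card := by
  have h1 : W ∩ (V ∪ V') = (W ∩ V) ∪ (W ∩ V') := Finset.inter_union_distrib_left _ _ _
  have h2 : Disjoint (W ∩ V) (W ∩ V') :=
    Finset.disjoint_of_subset_left Finset.inter_subset_right
      (Finset.disjoint_of_subset_right Finset.inter_subset_right hd)
  have h3 := sg_sdiff w (Finset.inter_subset_left : W ∩ (V ∪ V') ⊆ W)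
  rw [Finset.sdiff_inter_self_left, h1, sg_union w h2] at h3
  have h4 := Finset.card_inter_add_card_sdiff W (V ∪ V')
  rw [h1, Finset.card_union_of_disjoint h2] at h4
  omega

lemma sg_one (a : ι) : sg w {a} = w a := by
  unfold sg
  exact Finset.sum_singleton _ _

lemma L4 (hR : S_REAL) (hPUR : S_PUR) (hN : S_NODE) (hF3 : S_F3) (D : Da w d)
    {W W' V V' : Finset ι} {S T : Multiset (G ι d 3)}
    (hS : PC w d S W W') (hT : PC w d T V V') (hSw : Wt S = w) (hTw : Wt T = w)
    (h11 : (W ∩ V).card = 1) (h12 : (W ∩ V').card = 1) (h21 : (W' ∩ V).card = 1)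
    (h22 : (W' ∩ V').card = 1) : Cn S T := by
  obtain ⟨tW, tW', dW, hW, hW', ρ, c, hρ, hc⟩ := hS
  obtain ⟨tV, tV', dV, hV, hV', κ, c', hκ, hc'⟩ := hT
  have hd7 := D.d7
  have hd8 := D.d8
  obtain ⟨s1, k1⟩ := split (w := w) W V V' dV
  obtain ⟨s2, k2⟩ := split (w := w) W' V V' dV
  obtain ⟨s3, k3⟩ := split (w := w) V W W' dW
  obtain ⟨s4, k4⟩ := split (w := w) V' W W' dW
  rw [Finset.inter_comm V W, Finset.inter_comm V W'] at s3 k3
  rw [Finset.inter_comm V' W, Finset.inter_comm V' W'] at s4 k4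
  rw [tW.2.2] at s1
  rw [tW.2.1] at k1
  rw [tW'.2.2] at s2
  rw [tW'.2.1] at k2
  rw [tV.2.2] at s3
  rw [tV.2.1] at k3
  rw [tV'.2.2] at s4
  rw [tV'.2.1] at k4
  obtain ⟨a11, e11⟩ := Finset.card_eq_one.1 h11
  obtain ⟨a12, e12⟩ := Finset.card_eq_one.1 h12
  obtain ⟨a21, e21⟩ := Finset.card_eq_one.1 h21
  obtain ⟨a22, e22⟩ := Finset.card_eq_one.1 h22
  obtain ⟨b1, f1⟩ := Finset.card_eq_one.1 (show (W \ (V ∪ V')).card = 1 by omega)
  obtain ⟨b2, f2⟩ := Finset.card_eq_one.1 (show (W' \ (V ∪ V')).card = 1 by omega)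
  obtain ⟨c1, f3⟩ := Finset.card_eq_one.1 (show (V \ (W ∪ W')).card = 1 by omega)
  obtain ⟨c2, f4⟩ := Finset.card_eq_one.1 (show (V' \ (W ∪ W')).card = 1 by omega)
  rw [e11, e12, f1, sg_one, sg_one, sg_one] at s1
  rw [e21, e22, f2, sg_one, sg_one, sg_one] at s2
  rw [e11, e21, f3, sg_one, sg_one, sg_one] at s3
  rw [e12, e22, f4, sg_one, sg_one, sg_one] at s4
  -- the rest
  have hRsub : W ∪ W' ⊆ sp w := Finset.union_subset tW.1 tW'.1
  have hR5 : (sp w \ (W ∪ W')).card = 5 := by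
    rw [Finset.card_sdiff_of_subset hRsub, D.card, Finset.card_union_of_disjoint dW, tW.2.1,
      tW'.2.1]
  have hRs : sg w (sp w \ (W ∪ W')) = 2 * d := by
    have h1 := sg_sdiff w hRsub
    rw [sg_sp, D.sum, sg_union w dW, tW.2.2, tW'.2.2] at h1
    omega
  obtain ⟨s5, k5⟩ := split (w := w) (sp w \ (W ∪ W')) V V' dV
  have g1 : (sp w \ (W ∪ W')) ∩ V = {c1} := by
    rw [← f3]
    ext i
    have := @tV.1 i
    simp only [Finset.mem_inter, Finset.mem_sdiff]
    tauto
  have g2 : (sp w \ (W ∪ W')) ∩ V' = {c2} := by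
    rw [← f4]
    ext i
    have := @tV'.1 i
    simp only [Finset.mem_inter, Finset.mem_sdiff]
    tauto
  rw [g1, g2, hRs, sg_one, sg_one] at s5
  rw [g1, g2, hR5, Finset.card_singleton, Finset.card_singleton] at k5
  obtain ⟨e1, e2, e3, n12, n13, n23, hE⟩ := Finset.card_eq_three.1
    (show ((sp w \ (W ∪ W')) \ (V ∪ V')).card = 3 by omega)
  have n1 : e1 ∉ ({e2, e3} : Finset ι) := by
    rw [Finset.mem_insert, Finset.mem_singleton]
    tauto
  have hEs : sg w ((sp w \ (W ∪ W')) \ (V ∪ V')) = w e1 + w e2 + w e3 := by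
    rw [hE, sg_insert w n1]
    have : sg w {e2, e3} = w e2 + w e3 := Finset.sum_pair n23
    rw [this]
    omega
  rw [hEs] at s5
  -- membership
  have m11 : a11 ∈ W ∩ V := by rw [e11]; exact Finset.mem_singleton_self _
  have m12 : a12 ∈ W ∩ V' := by rw [e12]; exact Finset.mem_singleton_self _
  have m21 : a21 ∈ W' ∩ V := by rw [e21]; exact Finset.mem_singleton_self _
  have m22 : a22 ∈ W' ∩ V' := by rw [e22]; exact Finset.mem_singleton_self _
  have mb1 : b1 ∈ W \ (V ∪ V') := by rw [f1]; exact Finset.mem_singleton_self _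
  have mb2 : b2 ∈ W' \ (V ∪ V') := by rw [f2]; exact Finset.mem_singleton_self _
  have mc1 : c1 ∈ V \ (W ∪ W') := by rw [f3]; exact Finset.mem_singleton_self _
  have mc2 : c2 ∈ V' \ (W ∪ W') := by rw [f4]; exact Finset.mem_singleton_self _
  have me : ∀ e ∈ ({e1, e2, e3} : Finset ι), e ∈ sp w ∧ e ∉ W ∪ W' ∧ e ∉ V ∪ V' := by
    intro e he
    rw [← hE, Finset.mem_sdiff, Finset.mem_sdiff] at he
    exact ⟨he.1.1, he.1.2, he.2⟩
  have me1 := me e1 (by simp)
  have me2 := me e2 (by simp)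
  have me3 := me e3 (by simp)
  have pos : ∀ i ∈ sp w, 1 ≤ w i := fun i hi => Nat.one_le_iff_ne_zero.2 (mem_sp.1 hi)
  have hcase := hF3 d (by omega) (w a11) (w a12) (w a21) (w a22) (w b1) (w b2) (w c1) (w c2)
    (w e1) (w e2) (w e3) (pos _ (tW.1 (Finset.mem_inter.1 m11).1))
    (pos _ (tW.1 (Finset.mem_inter.1 m12).1)) (pos _ (tW'.1 (Finset.mem_inter.1 m21).1))
    (pos _ (tW'.1 (Finset.mem_inter.1 m22).1)) (pos _ (tW.1 (Finset.mem_sdiff.1 mb1).1))
    (pos _ (tW'.1 (Finset.mem_sdiff.1 mb2).1)) (pos _ (tV.1 (Finset.mem_sdiff.1 mc1).1))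
    (pos _ (tV'.1 (Finset.mem_sdiff.1 mc2).1)) (pos _ me1.1) (pos _ me2.1) (pos _ me3.1)
    (by omega) (by omega) (by omega) (by omega) (by omega)
  -- classification of the elements
  have cl : ∀ i ∈ sp w, (i ∈ W → i ∈ V → i = a11) ∧ (i ∈ W → i ∈ V' → i = a12) ∧
      (i ∈ W' → i ∈ V → i = a21) ∧ (i ∈ W' → i ∈ V' → i = a22) ∧
      (i ∈ W → i ∉ V → i ∉ V' → i = b1) ∧ (i ∈ W' → i ∉ V → i ∉ V' → i = b2) ∧
      (i ∈ V → i ∉ W → i ∉ W' → i = c1) ∧ (i ∈ V' → i ∉ W → i ∉ W' → i = c2) ∧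
      (i ∉ W → i ∉ W' → i ∉ V → i ∉ V' → i = e1 ∨ i = e2 ∨ i = e3) := by
    intro i hi
    refine ⟨fun h h' => ?_, fun h h' => ?_, fun h h' => ?_, fun h h' => ?_, fun h h' h'' => ?_,
      fun h h' h'' => ?_, fun h h' h'' => ?_, fun h h' h'' => ?_, fun h h' h'' h''' => ?_⟩
    · have : i ∈ W ∩ V := Finset.mem_inter.2 ⟨h, h'⟩
      rwa [e11, Finset.mem_singleton] at this
    · have : i ∈ W ∩ V' := Finset.mem_inter.2 ⟨h, h'⟩
      rwa [e12, Finset.mem_singleton] at this
    · have : i ∈ W' ∩ V := Finset.mem_inter.2 ⟨h, h'⟩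
      rwa [e21, Finset.mem_singleton] at this
    · have : i ∈ W' ∩ V' := Finset.mem_inter.2 ⟨h, h'⟩
      rwa [e22, Finset.mem_singleton] at this
    · have : i ∈ W \ (V ∪ V') := by
        rw [Finset.mem_sdiff, Finset.mem_union]
        tauto
      rwa [f1, Finset.mem_singleton] at this
    · have : i ∈ W' \ (V ∪ V') := by
        rw [Finset.mem_sdiff, Finset.mem_union]
        tauto
      rwa [f2, Finset.mem_singleton] at this
    · have : i ∈ V \ (W ∪ W') := by
        rw [Finset.mem_sdiff, Finset.mem_union]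
        tauto
      rwa [f3, Finset.mem_singleton] at this
    · have : i ∈ V' \ (W ∪ W') := by
        rw [Finset.mem_sdiff, Finset.mem_union]
        tauto
      rwa [f4, Finset.mem_singleton] at this
    · have : i ∈ (sp w \ (W ∪ W')) \ (V ∪ V') := by
        rw [Finset.mem_sdiff, Finset.mem_sdiff, Finset.mem_union, Finset.mem_union]
        tauto
      rw [hE, Finset.mem_insert, Finset.mem_insert, Finset.mem_singleton] at this
      exact this
  rcases hcase with ⟨hbig, hsmall⟩ | ⟨hb, hc1⟩ | ⟨i, j, k, hij, hjk, hor⟩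
  · -- a node inside the rest
    have hcl : ∀ e ∈ ({e1, e2, e3} : Finset ι), e ∈ cls w ρ c ∧ e ∈ cls w κ c' := by
      intro e he
      have h1 := me e he
      rw [hc, hc', Finset.mem_sdiff, Finset.mem_sdiff]
      exact ⟨⟨h1.1, h1.2.1⟩, ⟨h1.1, h1.2.2⟩⟩
    have hnode : ∀ x y z : ι, x ∈ ({e1, e2, e3} : Finset ι) → y ∈ ({e1, e2, e3} : Finset ι) →
        z ∈ ({e1, e2, e3} : Finset ι) → x ≠ y → x ≠ z → y ≠ z → w x + w y ≤ d →
        d ≤ w x + w y + w z → Cn S T := by
      intro x y z hx hy hz hxy hxz hyz h1 h2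
      have hsg : sg w {x, y} = w x + w y := Finset.sum_pair hxy
      have hB : Bn w 2 d {x, y} z := ⟨Finset.card_pair hxy, by
        rw [Finset.mem_insert, Finset.mem_singleton]
        tauto, by rw [hsg]; exact h1, by rw [hsg]; exact h2⟩
      refine hN ι d 2 3 3 3 w ρ κ c c' ({x, y}, z) S T le_rfl (by omega) (by rw [D.sum])
        (D.ih _ (sum_sub_bvec (k := 3) hB (by rw [D.sum]))) hB ?_ (hcl z hz).1 ?_ (hcl z hz).2 hρ hκ
      · intro i hi
        simp only [Finset.mem_insert, Finset.mem_singleton] at hi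
        rcases hi with rfl | rfl
        · exact (hcl _ hx).1
        · exact (hcl _ hy).1
      · intro i hi
        simp only [Finset.mem_insert, Finset.mem_singleton] at hi
        rcases hi with rfl | rfl
        · exact (hcl _ hx).2
        · exact (hcl _ hy).2
    rcases hsmall with h | h | h
    · exact hnode e1 e2 e3 (by simp) (by simp) (by simp) n12 n13 n23 h (by omega)
    · exact hnode e1 e3 e2 (by simp) (by simp) (by simp) n13 n12 n23.symm h (by omega)
    · exact hnode e2 e3 e1 (by simp) (by simp) (by simp) n23 n12.symm n13.symm h (by omega)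
  · -- exchange of `b1` and `c1`
    obtain ⟨hb1W, hb1V⟩ := Finset.mem_sdiff.1 mb1
    obtain ⟨hc1V, hc1W⟩ := Finset.mem_sdiff.1 mc1
    rw [Finset.mem_union, not_or] at hb1V hc1W
    obtain ⟨x1, x2⟩ := sg_exch w (R := W) hb1W hc1W.1
    have hN1 : Tr w d (insert c1 (W.erase b1)) := by
      refine ⟨?_, by rw [x2, tW.2.1], by have := tW.2.2; omega⟩
      intro i hi
      rw [Finset.mem_insert, Finset.mem_erase] at hi
      rcases hi with rfl | hi
      · exact tV.1 hc1V
      · exact tW.1 hi.2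
    have hN2 : Disjoint (insert c1 (W.erase b1)) W' := by
      rw [Finset.disjoint_left]
      intro i hi hi'
      rw [Finset.mem_insert, Finset.mem_erase] at hi
      rcases hi with rfl | hi
      · exact hc1W.2 hi'
      · exact Finset.disjoint_left.1 dW hi.2 hi'
    have hN3 : ((insert c1 (W.erase b1)) ∩ V).card = 2 := by
      have : (insert c1 (W.erase b1)) ∩ V = {c1, a11} := by
        ext i
        rw [Finset.mem_inter, Finset.mem_insert, Finset.mem_erase, Finset.mem_insert,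
          Finset.mem_singleton]
        constructor
        · rintro ⟨h | ⟨h1, h2⟩, h3⟩
          · exact Or.inl h
          · exact Or.inr ((cl i (tW.1 h2)).1 h2 h3)
        · rintro (rfl | rfl)
          · exact ⟨Or.inl rfl, hc1V⟩
          · obtain ⟨m1, m2⟩ := Finset.mem_inter.1 m11
            exact ⟨Or.inr ⟨fun h => hb1V.1 (h ▸ m2), m1⟩, m2⟩
      rw [this]
      apply Finset.card_pair
      rintro rfl
      exact hc1W.1 (Finset.mem_inter.1 m11).1
    obtain ⟨U, hU1, hU2, hU3⟩ := exPair hR hPUR D hN1 tW' hN2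
    exact (common D hW' hU3 hSw hU1).trans
      (L2 hR hPUR D hN1 tW' tV hN2 hN3 hU2 hU3 hV hU1 hTw)
  · -- a new triple
    rcases hor with h | h | h | h
    · -- complement of `W' ∪ V'`
      refine LK hR hPUR D tW' tV' h22 ![a11, b1, c1, e1, e2, e3] ?_ hij hjk ?_ hW' hV' hSw hTw
      · intro i hi
        rw [Finset.mem_sdiff, Finset.mem_union, not_or] at hi
        obtain ⟨hi0, hi1, hi2⟩ := hi
        obtain ⟨q1, q2, q3, q4, q5, q6, q7, q8, q9⟩ := cl i hi0
        by_cases hiW : i ∈ W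
        · by_cases hiV : i ∈ V
          · exact ⟨0, (q1 hiW hiV).symm⟩
          · exact ⟨1, (q5 hiW hiV hi2).symm⟩
        · by_cases hiV : i ∈ V
          · exact ⟨2, (q7 hiV hiW hi1).symm⟩
          · rcases q9 hiW hi1 hiV hi2 with h | h | h
            · exact ⟨3, h.symm⟩
            · exact ⟨4, h.symm⟩
            · exact ⟨5, h.symm⟩
      · rw [← h]
        have hv : ∀ i : Fin 6, w ((![a11, b1, c1, e1, e2, e3] : Fin 6 → ι) i) =
            (![w a11, w b1, w c1, w e1, w e2, w e3] : Fin 6 → ℕ) i := by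
          intro i
          fin_cases i <;> rfl
        rw [hv, hv, hv]
    · -- complement of `W' ∪ V`
      refine LK hR hPUR D tW' tV h21 ![a12, b1, c2, e1, e2, e3] ?_ hij hjk ?_ hW' hV hSw hTw
      · intro i hi
        rw [Finset.mem_sdiff, Finset.mem_union, not_or] at hi
        obtain ⟨hi0, hi1, hi2⟩ := hi
        obtain ⟨q1, q2, q3, q4, q5, q6, q7, q8, q9⟩ := cl i hi0
        by_cases hiW : i ∈ W
        · by_cases hiV : i ∈ V'
          · exact ⟨0, (q2 hiW hiV).symm⟩
          · exact ⟨1, (q5 hiW hi2 hiV).symm⟩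
        · by_cases hiV : i ∈ V'
          · exact ⟨2, (q8 hiV hiW hi1).symm⟩
          · rcases q9 hiW hi1 hi2 hiV with h | h | h
            · exact ⟨3, h.symm⟩
            · exact ⟨4, h.symm⟩
            · exact ⟨5, h.symm⟩
      · rw [← h]
        have hv : ∀ i : Fin 6, w ((![a12, b1, c2, e1, e2, e3] : Fin 6 → ι) i) =
            (![w a12, w b1, w c2, w e1, w e2, w e3] : Fin 6 → ℕ) i := by
          intro i
          fin_cases i <;> rfl
        rw [hv, hv, hv]
    · -- complement of `W ∪ V'`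
      refine LK hR hPUR D tW tV' h12 ![a21, b2, c1, e1, e2, e3] ?_ hij hjk ?_ hW hV' hSw hTw
      · intro i hi
        rw [Finset.mem_sdiff, Finset.mem_union, not_or] at hi
        obtain ⟨hi0, hi1, hi2⟩ := hi
        obtain ⟨q1, q2, q3, q4, q5, q6, q7, q8, q9⟩ := cl i hi0
        by_cases hiW : i ∈ W'
        · by_cases hiV : i ∈ V
          · exact ⟨0, (q3 hiW hiV).symm⟩
          · exact ⟨1, (q6 hiW hiV hi2).symm⟩
        · by_cases hiV : i ∈ V
          · exact ⟨2, (q7 hiV hi1 hiW).symm⟩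
          · rcases q9 hi1 hiW hiV hi2 with h | h | h
            · exact ⟨3, h.symm⟩
            · exact ⟨4, h.symm⟩
            · exact ⟨5, h.symm⟩
      · rw [← h]
        have hv : ∀ i : Fin 6, w ((![a21, b2, c1, e1, e2, e3] : Fin 6 → ι) i) =
            (![w a21, w b2, w c1, w e1, w e2, w e3] : Fin 6 → ℕ) i := by
          intro i
          fin_cases i <;> rfl
        rw [hv, hv, hv]
    · -- complement of `W ∪ V`
      refine LK hR hPUR D tW tV h11 ![a22, b2, c2, e1, e2, e3] ?_ hij hjk ?_ hW hV hSw hTw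
      · intro i hi
        rw [Finset.mem_sdiff, Finset.mem_union, not_or] at hi
        obtain ⟨hi0, hi1, hi2⟩ := hi
        obtain ⟨q1, q2, q3, q4, q5, q6, q7, q8, q9⟩ := cl i hi0
        by_cases hiW : i ∈ W'
        · by_cases hiV : i ∈ V'
          · exact ⟨0, (q4 hiW hiV).symm⟩
          · exact ⟨1, (q6 hiW hi2 hiV).symm⟩
        · by_cases hiV : i ∈ V'
          · exact ⟨2, (q8 hiV hi1 hiW).symm⟩
          · rcases q9 hi1 hiW hi2 hiV with h | h | h
            · exact ⟨3, h.symm⟩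
            · exact ⟨4, h.symm⟩
            · exact ⟨5, h.symm⟩
      · rw [← h]
        have hv : ∀ i : Fin 6, w ((![a22, b2, c2, e1, e2, e3] : Fin 6 → ι) i) =
            (![w a22, w b2, w c2, w e1, w e2, w e3] : Fin 6 → ℕ) i := by
          intro i
          fin_cases i <;> rfl
        rw [hv, hv, hv]

lemma PC.symm {S : Multiset (G ι d 3)} {W V : Finset ι} (h : PC w d S W V) : PC w d S V W := by
  obtain ⟨h1, h2, h3, h4, h5, ρ, c, h6, h7⟩ := h
  exact ⟨h2, h1, h3.symm, h5, h4, ρ, c, h6, by rw [h7, Finset.union_comm]⟩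

theorem main (hGRP : S_GRP) (hR : S_REAL) (hN : S_NODE) (hPUR : S_PUR) (hF3 : S_F3) : S_T5 := by
  intro ι _ _ d w hd7 hd8 hsum hcard hih S T hS hT hSw hTw
  have D : Da w d := ⟨hd7, hd8, hsum, hcard, hih⟩
  obtain ⟨W, W', hp⟩ := exists_pc hGRP hPUR D hSw
  obtain ⟨V, V', hq⟩ := exists_pc hGRP hPUR D hTw
  -- one pair of triples
  have hone : ∀ W W' V V' : Finset ι, PC w d S W W' → PC w d T V V' → (W ∩ V).card ≠ 1 →
      Cn S T := by
    intro W W' V V' hp hq hne
    obtain ⟨tW, tW', dW, hW, hW', -⟩ := hp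
    obtain ⟨tV, tV', dV, hV, hV', -⟩ := hq
    have hle : (W ∩ V).card ≤ 3 := (Finset.card_le_card Finset.inter_subset_left).trans tW.2.1.le
    rcases (by omega : (W ∩ V).card = 0 ∨ (W ∩ V).card = 2 ∨ (W ∩ V).card = 3) with h | h | h
    · exact L0 hR hPUR D tW tV (Finset.disjoint_iff_inter_eq_empty.2 (Finset.card_eq_zero.1 h))
        hW hV hSw hTw
    · exact L2 hR hPUR D tW tW' tV dW h hW hW' hV hSw hTw
    · have e1 : W ∩ V = W := Finset.eq_of_subset_of_card_le Finset.inter_subset_left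
        (by rw [h, tW.2.1])
      have e2 : W ∩ V = V := Finset.eq_of_subset_of_card_le Finset.inter_subset_right
        (by rw [h, tV.2.1])
      have e3 : W = V := e1.symm.trans e2
      subst e3
      exact common D hW hV hSw hTw
  by_cases h11 : (W ∩ V).card = 1
  · by_cases h12 : (W ∩ V').card = 1
    · by_cases h21 : (W' ∩ V).card = 1
      · by_cases h22 : (W' ∩ V').card = 1
        · exact L4 hR hPUR hN hF3 D hp hq hSw hTw h11 h12 h21 h22
        · exact hone _ _ _ _ hp.symm hq.symm h22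
      · exact hone _ _ _ _ hp.symm hq h21
    · exact hone _ _ _ _ hp hq.symm h12
  · exact hone _ _ _ _ hp hq h11

end Pool.Agent.Helper32.PQ.T5
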